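import Mathlib
import Pool.Agent.Helper76_LAG.Defs

/-!
# LLG, module GAD: finite regular graphs of large girth

Each step replaces a graph by its homology cover with coefficients in ZMod 2; this doubles the girth.
-/

set_option autoImplicit false

namespace Pool.Agent.LLG.H48

open SimpleGraph Pool.Agent.LAG

/-- GAD: there are finite regular graphs of any degree and of any girth. -/
def GadStmt : Prop := ∀ d g : ℕ, 1 ≤ d → ∃ (D : Type) (_ : Fintype D) (X : SimpleGraph D)
  (a b : D), (∀ v, (X.neighborSet v).ncard = d) ∧ Big X g ∧ X.Adj a b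

namespace Gad

section cover

variable {D : Type} (X : SimpleGraph D)

open Classical in
/-- the function which is one at the edge `v u` -/
noncomputable def sg (v u : D) : Sym2 D → ZMod 2 := Pi.single s(v, u) 1

lemma sg_symm (v u : D) : sg v u = sg u v := by unfold sg; rw [Sym2.eq_swap]

lemma dbl (x : Sym2 D → ZMod 2) : x + x = 0 := by
  funext e
  exact CharTwo.add_self_eq_zero (x e)

/-- the homology cover -/
noncomputable def cov : SimpleGraph (D × (Sym2 D → ZMod 2)) where
  Adj p q := X.Adj p.1 q.1 ∧ q.2 = p.2 + sg p.1 q.1
  symm := ⟨fun p q h => ⟨h.1.symm, by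
    rw [h.2, sg_symm q.1 p.1, add_assoc, dbl, add_zero]⟩⟩
  loopless := ⟨fun _ h => h.1.ne rfl⟩

/-- the projection -/
noncomputable def pj : cov X →g X where
  toFun p := p.1
  map_rel' h := h.1

lemma cov_degree (d : ℕ) (h : ∀ v, (X.neighborSet v).ncard = d) (p : D × (Sym2 D → ZMod 2)) :
    ((cov X).neighborSet p).ncard = d := by
  rw [← h p.1]
  have : (cov X).neighborSet p = (fun u => (u, p.2 + sg p.1 u)) '' X.neighborSet p.1 := by
    ext q
    constructor
    · rintro ⟨h1, h2⟩
      exact ⟨q.1, h1, Prod.ext rfl h2.symm⟩
    · rintro ⟨u, hu, rfl⟩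
      exact ⟨hu, rfl⟩
  rw [this]
  exact Set.ncard_image_of_injective _ fun u v huv => (Prod.mk.inj huv).1

open Classical in
lemma count_edges {p q : D × (Sym2 D → ZMod 2)} (c : (cov X).Walk p q) (e : Sym2 D) :
    q.2 e = p.2 e + ((c.map (pj X)).edges.count e : ZMod 2) := by
  induction c with
  | nil => simp
  | @cons u v w h c ih =>
    rw [ih, Walk.map_cons, Walk.edges_cons, List.count_cons, h.2]
    have e1 : (s((pj X) u, (pj X) v) : Sym2 D) = s(u.1, v.1) := rfl
    rw [e1, Pi.add_apply]
    unfold sg
    by_cases he : s(u.1, v.1) = e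
    · rw [he, Pi.single_eq_same]
      simp only [beq_self_eq_true, if_true]
      push_cast
      ring
    · rw [Pi.single_eq_of_ne (Ne.symm he)]
      have : (s(u.1, v.1) == e) = false := by simpa using he
      rw [this]
      simp

lemma chain_of_trail {p q : D × (Sym2 D → ZMod 2)} (c : (cov X).Walk p q)
    (h : c.edges.Nodup) : List.IsChain (· ≠ ·) (c.map (pj X)).edges := by
  induction c with
  | nil => simp
  | @cons u v w huv c ih =>
    rw [Walk.edges_cons, List.nodup_cons] at h
    rw [Walk.map_cons, Walk.edges_cons]
    cases c with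
    | nil => simp
    | @cons _ v' _ hvv c' =>
      have ih' := ih h.2
      rw [Walk.map_cons, Walk.edges_cons] at ih' ⊢
      refine List.IsChain.cons_cons ?_ ih'
      intro heq
      apply h.1
      rw [Walk.edges_cons]
      have h1 : s(u.1, v.1) = s(v.1, v'.1) := heq
      have h2 : u.1 = v'.1 := by
        rw [Sym2.eq_iff] at h1
        rcases h1 with ⟨h3, h4⟩ | ⟨h3, _⟩
        · exact h3.trans h4
        · exact h3
      have h3 : u.2 = v'.2 := by
        rw [hvv.2, huv.2, ← h2, sg_symm v.1 u.1, add_assoc, dbl, add_zero]
      have h4 : u = v' := Prod.ext h2 h3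
      rw [h4, Sym2.eq_swap]
      exact List.mem_cons_self

lemma big_cov {g : ℕ} (hX : Big X g) : Big (cov X) (2 * g + 1) := by
  classical
  intro p c hc
  set w := c.map (pj X) with hw
  have hlen : w.length = c.length := by rw [hw, Walk.length_map]
  -- every edge occurs an even number of times
  have heven : ∀ e, e ∈ w.edges → 2 ≤ w.edges.count e := by
    intro e he
    have h1 := count_edges X c e
    have h2 : ((w.edges.count e : ℕ) : ZMod 2) = 0 := by
      have h3 : p.2 e + ((w.edges.count e : ℕ) : ZMod 2) = p.2 e + 0 := by
        rw [add_zero]; exact h1.symm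
      exact add_left_cancel h3
    rw [ZMod.natCast_eq_zero_iff] at h2
    have h3 : 0 < w.edges.count e := List.count_pos_iff.2 he
    omega
  let H : SimpleGraph D := fromEdgeSet {e | e ∈ w.edges}
  have hHX : H ≤ X := by
    intro u v huv
    rw [fromEdgeSet_adj] at huv
    exact Walk.edges_subset_edgeSet w huv.1
  by_cases hH : H.IsAcyclic
  · exfalso
    have hmem : ∀ e ∈ w.edges, e ∈ H.edgeSet := by
      intro e he
      have := Walk.edges_subset_edgeSet w he
      rw [edgeSet_fromEdgeSet]
      exact ⟨he, fun hd => X.not_isDiag_of_mem_edgeSet this hd⟩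
    have h1 := hH.isPath_iff_isChain (w.transfer H hmem)
    rw [Walk.edges_transfer] at h1
    have h2 := h1.2 (chain_of_trail X c hc.isTrail.edges_nodup)
    have h3 : (w.transfer H hmem).length = 0 := by
      exact Walk.length_eq_zero_iff.2 (Walk.isPath_iff_nil.1 h2)
    rw [Walk.length_transfer, hlen] at h3
    have := hc.three_le_length
    omega
  · unfold IsAcyclic at hH
    push Not at hH
    obtain ⟨v, z, hz⟩ := hH
    have h1 : g < z.length := by
      have := hX v (z.mapLe hHX) (hz.mapLe hHX)
      simpa using this
    -- the edges of z occur twice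
    have h2 : 2 * z.length ≤ w.edges.length := by
      have hsub : ∀ e ∈ z.edges.toFinset, 2 ≤ w.edges.count e := by
        intro e he
        rw [List.mem_toFinset] at he
        have h3 := Walk.edges_subset_edgeSet z he
        rw [edgeSet_fromEdgeSet] at h3
        exact heven e h3.1
      have h4 : z.edges.toFinset.card = z.length := by
        rw [List.toFinset_card_of_nodup hz.isTrail.edges_nodup, Walk.length_edges]
      calc 2 * z.length = ∑ e ∈ z.edges.toFinset, 2 := by
            rw [Finset.sum_const, h4, smul_eq_mul, mul_comm]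
        _ ≤ ∑ e ∈ z.edges.toFinset, w.edges.count e := Finset.sum_le_sum hsub
        _ ≤ ∑ e ∈ w.edges.toFinset, w.edges.count e := by
            refine Finset.sum_le_sum_of_subset ?_
            intro e he
            rw [List.mem_toFinset] at he ⊢
            have h3 := Walk.edges_subset_edgeSet z he
            rw [edgeSet_fromEdgeSet] at h3
            exact h3.1
        _ = w.edges.length := by rw [List.sum_toFinset_count_eq_length]
    rw [Walk.length_edges, hlen] at h2
    omega

end cover

theorem gad : GadStmt := by
  intro d g hd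
  have key : ∀ n : ℕ, ∃ (D : Type) (_ : Fintype D) (X : SimpleGraph D) (a b : D),
      (∀ v, (X.neighborSet v).ncard = d) ∧ Big X n ∧ X.Adj a b := by
    intro n
    induction n with
    | zero =>
      refine ⟨Fin (d + 1), inferInstance, ⊤, 0, Fin.last d, ?_, ?_, ?_⟩
      · intro v
        have : (⊤ : SimpleGraph (Fin (d + 1))).neighborSet v = {v}ᶜ := by
          ext u; simp [eq_comm]
        rw [this, Set.ncard_compl, Set.ncard_singleton]
        simp
      · intro v c hc
        have := hc.three_le_length
        omega
      · rw [top_adj]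
        intro h
        have := congrArg Fin.val h
        simp at this
        omega
    | succ n ih =>
      obtain ⟨D, hD, X, a, b, h1, h2, h3⟩ := ih
      classical
      refine ⟨D × (Sym2 D → ZMod 2), inferInstance, cov X, (a, 0), (b, sg a b),
        cov_degree X d h1, ?_, ⟨h3, by simp⟩⟩
      intro v c hc
      have := big_cov X h2 v c hc
      omega
  exact key g

end Gad

end Pool.Agent.LLG.H48
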