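import Mathlib
import Pool.Agent.Helper76_LAG.Stmt
import Pool.Agent.Helper76_LAG.Near
import Pool.Agent.Helper10_LAG.Uniq
import Pool.Agent.Helper48_LLG.Gad

/-!
# LLG, module REG: regularisation which keeps the girth and the distances
-/

set_option autoImplicit false

namespace Pool.Agent.LLG.H48

open SimpleGraph Pool.Agent.LAG

/-- REG: `R ≤ A` of maximum degree at most `d` becomes `d`-regular in a larger graph; all cycles are
still longer than `g` and distances up to `g` do not decrease. -/
def RegStmt : Prop := ∀ (V : Type) [Fintype V] (A R : SimpleGraph V) (d g : ℕ), R ≤ A → Big A g →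
    (∀ v, (R.neighborSet v).ncard ≤ d) →
    ∃ (W : Type) (_ : Fintype W) (f : V ↪ W) (A' R' : SimpleGraph W),
      A' = R' ⊔ (A \ R).map f ∧ A'.comap f = A ∧ R'.comap f = R ∧
      (∀ w, (R'.neighborSet w).ncard = d) ∧ Big A' g ∧
      ∃ π : W → V, (∀ v, π (f v) = v) ∧
        ∀ w x r, r ≤ g → near A' r w (f x) → near A r (π w) x

namespace Reg

section construction

variable {V D : Type} (A R : SimpleGraph V) (X : SimpleGraph D) (a b : D) (d : ℕ)

/-- the vertices of the new graph -/
abbrev WW (V D : Type) (d : ℕ) : Type := (V × Bool) ⊕ ((V × Fin d) × D)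

/-- the active slots -/
def act (p : V × Fin d) : Prop := p.2.val + (R.neighborSet p.1).ncard < d

/-- the end of the gadget which is joined to the copy `s` -/
def en (s : Bool) : D := if s then b else a

/-- the adjacency -/
def adjW : WW V D d → WW V D d → Prop
  | .inl (v, s), .inl (u, t) => s = t ∧ (if s then R.Adj v u else A.Adj v u)
  | .inl (v, s), .inr (p, x) => p.1 = v ∧ act R d p ∧ x = en a b s
  | .inr (p, x), .inl (v, s) => p.1 = v ∧ act R d p ∧ x = en a b s
  | .inr (p, x), .inr (q, y) => p = q ∧ X.Adj x y ∧ (act R d p → s(x, y) ≠ s(a, b))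

/-- the new graph -/
def RG : SimpleGraph (WW V D d) where
  Adj := adjW A R X a b d
  symm := ⟨by
    rintro (⟨v, s⟩ | ⟨p, x⟩) (⟨u, t⟩ | ⟨q, y⟩) h
    · obtain ⟨rfl, h⟩ := h
      refine ⟨rfl, ?_⟩
      cases s
      · simpa using (show A.Adj v u by simpa using h).symm
      · simpa using (show R.Adj v u by simpa using h).symm
    · exact h
    · exact h
    · obtain ⟨rfl, h1, h2⟩ := h
      exact ⟨rfl, h1.symm, by rw [Sym2.eq_swap]; exact h2⟩⟩
  loopless := ⟨by
    rintro (⟨v, s⟩ | ⟨p, x⟩) h
    · obtain ⟨-, h⟩ := h
      cases s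
      · exact A.loopless.irrefl v (by simpa using h)
      · exact R.loopless.irrefl v (by simpa using h)
    · exact h.2.1.ne rfl⟩

/-- the projection to `V` -/
def pv : WW V D d → V
  | .inl (v, _) => v
  | .inr (p, _) => p.1

/-- the projection to `D` -/
def pd : WW V D d → D
  | .inl _ => a
  | .inr (_, x) => x

/-- the piece -/
def pc : WW V D d → Bool ⊕ (V × Fin d)
  | .inl (_, s) => .inl s
  | .inr (p, _) => .inr p

lemma en_ne (hab : a ≠ b) {s s' : Bool} (h : s' ≠ s) : en a b s ≠ en a b s' := by
  unfold en
  cases s <;> cases s'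
  · exact absurd rfl h
  · simpa using hab
  · simpa using hab.symm
  · exact absurd rfl h

lemma en_adj (hab : X.Adj a b) {s s' : Bool} (h : s' ≠ s) : X.Adj (en a b s') (en a b s) := by
  unfold en
  cases s <;> cases s'
  · exact absurd rfl h
  · simpa using hab.symm
  · simpa using hab
  · exact absurd rfl h

lemma en_sym {s s' : Bool} (h : s' ≠ s) : s(en a b s, en a b s') = s(a, b) := by
  unfold en
  cases s <;> cases s'
  · exact absurd rfl h
  · simp
  · simp [Sym2.eq_swap]
  · exact absurd rfl h

/-! ### Leaving a gadget -/

lemma exit {g : ℕ} (hX : Big X g) (hab : X.Adj a b) (z : ℕ → WW V D d) (n : ℕ) (v : V) (s : Bool)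
    (p : V × Fin d) (x1 : D) (h0 : z 0 = .inl (v, s)) (h1 : z 1 = .inr (p, x1)) (hn : 1 ≤ n)
    (hadj : ∀ t, t < n → (RG A R X a b d).Adj (z t) (z (t + 1)))
    (hinj : ∀ i j, 1 ≤ i → i ≤ n → 1 ≤ j → j ≤ n → z i = z j → i = j)
    (hz0 : ∀ i, 1 ≤ i → i ≤ n → z i = z 0 → i = n ∧ 3 ≤ n)
    (hend : ∃ q, z n = .inl q) : g < n := by
  classical
  -- the first step
  have hst := hadj 0 (by omega)
  rw [h0, h1] at hst
  obtain ⟨hpv, hact, hx1⟩ := hst
  -- the exit
  have hex : ∃ j, 1 ≤ j ∧ j < n ∧ ∃ q, z (j + 1) = .inl q := by
    obtain ⟨q, hq⟩ := hend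
    have hn1 : n ≠ 1 := by
      rintro rfl
      rw [h1] at hq
      exact absurd hq (by simp)
    exact ⟨n - 1, by omega, by omega, q, by rw [Nat.sub_add_cancel hn]; exact hq⟩
  set j := Nat.find hex with hj
  obtain ⟨hj1, hjn, ⟨v', s'⟩, hjq⟩ := Nat.find_spec hex
  rw [← hj] at hj1 hjn hjq
  have hmin : ∀ i, 1 ≤ i → i < j → ¬ ∃ q, z (i + 1) = .inl q := by
    intro i hi hij hq
    exact Nat.find_min hex hij ⟨hi, by omega, hq⟩
  -- inside the gadget
  have hin : ∀ i, 1 ≤ i → i ≤ j → z i = .inr (p, pd a d (z i)) := by
    intro i hi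
    induction i, hi using Nat.le_induction with
    | base => intro _; rw [h1]; rfl
    | succ i hi ih =>
      intro hij
      have h2 := ih (by omega)
      have h3 := hadj i (by omega)
      rw [h2] at h3
      rcases h4 : z (i + 1) with q | ⟨q, y⟩
      · exact absurd ⟨q, h4⟩ (hmin i hi (by omega))
      · rw [h4] at h3
        rw [← h3.1]
        rfl
  have hjz := hin j hj1 le_rfl
  have h5 := hadj j hjn
  rw [hjz, hjq] at h5
  obtain ⟨hpv', -, hxj⟩ := h5
  have hvv : v' = v := by rw [← hpv', hpv]
  by_cases hs : s' = s
  · -- back at the start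
    exfalso
    subst hs
    subst hvv
    have h6 := hz0 (j + 1) (by omega) (by omega) (by rw [hjq, h0])
    have h7 : z j = z 1 := by rw [hjz, h1, hxj, hx1]
    have := hinj j 1 hj1 (by omega) le_rfl hn h7
    omega
  · -- through the gadget
    have hne : x1 ≠ pd a d (z j) := by
      rw [hxj, hx1]
      exact en_ne a b hab.ne hs
    have hj2 : j ≠ 1 := by
      intro h
      apply hne
      rw [h, h1]
      rfl
    have hstep : ∀ i, 1 ≤ i → i < j → X.Adj (pd a d (z i)) (pd a d (z (i + 1))) ∧
        s(pd a d (z i), pd a d (z (i + 1))) ≠ s(a, b) := by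
      intro i hi hij
      have h6 := hadj i (by omega)
      rw [hin i hi (by omega), hin (i + 1) (by omega) (by omega)] at h6
      exact ⟨h6.2.1, h6.2.2 hact⟩
    have hclose : X.Adj (pd a d (z j)) x1 := by
      rw [hxj, hx1]
      exact en_adj X a b hab hs
    have hsym : s(x1, pd a d (z j)) = s(a, b) := by
      rw [hxj, hx1]
      exact en_sym a b hs
    have hp1 : pd a d (z 1) = x1 := by rw [h1]; rfl
    have hj3 : 3 ≤ j := by
      by_contra hcon
      have h6 : j = 2 := by omega
      have h7 := (hstep 1 le_rfl (by omega)).2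
      rw [hp1] at h7
      rw [h6] at hsym
      exact h7 hsym
    have hC : IsC X (fun i => if i < j then pd a d (z (i + 1)) else x1) j := by
      refine ⟨hj3, ?_, ?_, ?_⟩
      · intro t ht
        simp only [if_pos ht]
        by_cases h6 : t + 1 < j
        · rw [if_pos h6]
          exact (hstep (t + 1) (by omega) h6).1
        · have h7 : t + 1 = j := by omega
          rw [if_neg h6, h7]
          exact hclose
      · simp only [lt_irrefl, if_false]
        rw [if_pos (by omega), hp1]
      · intro i k hi hk h6
        simp only [if_pos hi, if_pos hk] at h6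
        have h7 : z (i + 1) = z (k + 1) := by
          rw [hin (i + 1) (by omega) (by omega), hin (k + 1) (by omega) (by omega), h6]
        have := hinj (i + 1) (k + 1) (by omega) (by omega) (by omega) (by omega) h7
        omega
    have := cycLen D X g hX _ _ hC
    omega

/-! ### Rotations and reflections of cycles -/

lemma rot {W : Type} {G : SimpleGraph W} {z : ℕ → W} {m : ℕ} (hz : IsC G z m) (t : ℕ)
    (ht : t < m) : IsC G (fun s => z ((t + s) % m)) m := by
  obtain ⟨h3, hadj, h0, hinj⟩ := hz
  refine ⟨h3, ?_, ?_, ?_⟩
  · intro s hs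
    have h1 : (t + s) % m < m := Nat.mod_lt _ (by omega)
    have h2 := hadj _ h1
    have h3' : (t + (s + 1)) % m = if (t + s) % m + 1 = m then 0 else (t + s) % m + 1 := by
      rw [← add_assoc, Nat.add_mod, Nat.mod_eq_of_lt (show 1 < m by omega)]
      split_ifs with h
      · rw [h, Nat.mod_self]
      · exact Nat.mod_eq_of_lt (by omega)
    show G.Adj (z ((t + s) % m)) (z ((t + (s + 1)) % m))
    rw [h3']
    split_ifs with h
    · rw [h, h0] at h2
      exact h2
    · exact h2
  · show z ((t + m) % m) = z ((t + 0) % m)
    rw [Nat.add_mod_right, add_zero]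
  · intro s s' hs hs' h
    have h1 := hinj _ _ (Nat.mod_lt _ (by omega)) (Nat.mod_lt _ (by omega)) h
    have h2 : s ≡ s' [MOD m] := Nat.ModEq.add_left_cancel' t h1
    have h4 : s % m = s' % m := h2
    rwa [Nat.mod_eq_of_lt hs, Nat.mod_eq_of_lt hs'] at h4

lemma refl {W : Type} {G : SimpleGraph W} {z : ℕ → W} {m : ℕ} (hz : IsC G z m) :
    IsC G (fun s => z (m - s)) m := by
  obtain ⟨h3, hadj, h0, hinj⟩ := hz
  refine ⟨h3, ?_, ?_, ?_⟩
  · intro s hs
    have h1 := hadj (m - (s + 1)) (by omega)
    rw [show m - (s + 1) + 1 = m - s by omega] at h1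
    exact h1.symm
  · show z (m - m) = z (m - 0)
    rw [Nat.sub_self, Nat.sub_zero, h0]
  · intro s s' hs hs' h
    have h' : z (m - s) = z (m - s') := h
    rcases Nat.eq_zero_or_pos s with h1 | h1
    · rcases Nat.eq_zero_or_pos s' with h2 | h2
      · omega
      · rw [h1, Nat.sub_zero, h0] at h'
        have := hinj _ _ (by omega) (by omega) h'
        omega
    · rcases Nat.eq_zero_or_pos s' with h2 | h2
      · rw [h2, Nat.sub_zero, h0] at h'
        have := hinj _ _ (by omega) (by omega) h'
        omega
      · have := hinj _ _ (by omega) (by omega) h'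
        omega

/-! ### Girth -/

lemma cyc_exit {g : ℕ} (hX : Big X g) (hab : X.Adj a b) (z : ℕ → WW V D d) (m : ℕ)
    (hz : IsC (RG A R X a b d) z m) (t : ℕ) (ht : t < m) (q : V × Bool) (r : (V × Fin d) × D)
    (h1 : z t = .inl q) (h2 : z ((t + 1) % m) = .inr r) : g < m := by
  have h := rot hz t ht
  have e1 : (1 : ℕ) ≤ m := by have := hz.1; omega
  refine exit A R X a b d hX hab (fun s => z ((t + s) % m)) m q.1 q.2 r.1 r.2 ?_ h2 e1 h.2.1
    ?_ ?_ ?_
  · show z ((t + 0) % m) = _
    rw [add_zero, Nat.mod_eq_of_lt ht, h1]
  · intro i j hi him hj hjm hij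
    rcases Nat.lt_or_ge i m with h3 | h3
    · rcases Nat.lt_or_ge j m with h4 | h4
      · exact h.2.2.2 i j h3 h4 hij
      · have h5 : j = m := by omega
        subst h5
        have h6 := h.2.2.1
        have h7 := h.2.2.2 i 0 h3 (by omega) (hij.trans h6)
        omega
    · have h5 : i = m := by omega
      subst h5
      rcases Nat.lt_or_ge j i with h4 | h4
      · have h6 := h.2.2.1
        have h7 := h.2.2.2 j 0 h4 (by omega) (hij.symm.trans h6)
        omega
      · omega
  · intro i hi him hi0
    rcases Nat.lt_or_ge i m with h3 | h3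
    · have := h.2.2.2 i 0 h3 (by omega) hi0
      omega
    · exact ⟨by omega, hz.1⟩
  · refine ⟨q, ?_⟩
    show z ((t + m) % m) = _
    rw [Nat.add_mod_right, Nat.mod_eq_of_lt ht, h1]

lemma big_RG {g : ℕ} (hRA : R ≤ A) (hA : Big A g) (hX : Big X g) (hab : X.Adj a b) :
    Big (RG A R X a b d) g := by
  intro w c hc
  have hz : IsC (RG A R X a b d) c.getVert c.length := by
    refine ⟨hc.three_le_length, fun t ht => c.adj_getVert_succ ht, ?_, ?_⟩
    · rw [Walk.getVert_length, Walk.getVert_zero]
    · intro s t hs ht hst
      exact hc.getVert_injOn' (by rw [Set.mem_ofPred_eq]; omega) (by rw [Set.mem_ofPred_eq]; omega)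
        hst
  set z := c.getVert with hzdef
  set m := c.length with hm
  clear_value z m
  have hm3 := hz.1
  by_cases hlink : ∃ t, t < m ∧ pc d (z t) ≠ pc d (z (t + 1))
  · obtain ⟨t, ht, hne⟩ := hlink
    have hadj := hz.2.1 t ht
    have hmod : z ((t + 1) % m) = z (t + 1) := by
      rcases Nat.lt_or_ge (t + 1) m with h | h
      · rw [Nat.mod_eq_of_lt h]
      · have : t + 1 = m := by omega
        rw [this, Nat.mod_self, hz.2.2.1]
    rcases h1 : z t with ⟨v, s⟩ | ⟨p, x⟩
    · rcases h2 : z (t + 1) with ⟨u, s'⟩ | ⟨q, y⟩
      · rw [h1, h2] at hadj hne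
        exact absurd (congrArg Sum.inl hadj.1) hne
      · exact cyc_exit A R X a b d hX hab z m hz t ht (v, s) (q, y) h1 (by rw [hmod, h2])
    · rcases h2 : z (t + 1) with ⟨u, s'⟩ | ⟨q, y⟩
      · -- reflect
        have hz' := refl hz
        refine cyc_exit A R X a b d hX hab _ m hz' (m - (t + 1)) (by omega) (u, s') (p, x) ?_ ?_
        · show z (m - (m - (t + 1))) = _
          rw [show m - (m - (t + 1)) = t + 1 by omega, h2]
        · show z (m - ((m - (t + 1) + 1) % m)) = _
          rw [show m - (t + 1) + 1 = m - t by omega]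
          rcases Nat.eq_zero_or_pos t with h3 | h3
          · subst h3
            rw [Nat.sub_zero, Nat.mod_self, Nat.sub_zero, hz.2.2.1, h1]
          · rw [Nat.mod_eq_of_lt (by omega), show m - (m - t) = t by omega, h1]
      · rw [h1, h2] at hadj hne
        exact absurd (congrArg Sum.inr hadj.1) hne
  · push Not at hlink
    have hall : ∀ t, t ≤ m → pc d (z t) = pc d (z 0) := by
      intro t
      induction t with
      | zero => intro _; rfl
      | succ t ih => intro h; rw [← hlink t (by omega)]; exact ih (by omega)
    rcases h0 : pc d (z 0) with s | p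
    · -- inside a copy of V
      have hzt : ∀ t, t ≤ m → z t = .inl (pv d (z t), s) := by
        intro t ht
        have h1 := hall t ht
        rw [h0] at h1
        rcases h2 : z t with ⟨v, s'⟩ | ⟨q, y⟩
        · rw [h2] at h1
          have : s' = s := by simpa [pc] using h1
          rw [this]
          rfl
        · rw [h2] at h1
          simp [pc] at h1
      have hC : IsC A (fun t => pv d (z t)) m := by
        refine ⟨hm3, ?_, ?_, ?_⟩
        · intro t ht
          have h1 := hz.2.1 t ht
          rw [hzt t (by omega), hzt (t + 1) (by omega)] at h1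
          obtain ⟨-, h1⟩ := h1
          cases s
          · simpa using h1
          · exact hRA (by simpa using h1)
        · show pv d (z m) = pv d (z 0)
          rw [hz.2.2.1]
        · intro i j hi hj hij
          apply hz.2.2.2 i j hi hj
          rw [hzt i (by omega), hzt j (by omega)]
          have hij' : pv d (z i) = pv d (z j) := hij
          rw [hij']
      exact cycLen V A g hA _ _ hC
    · have hzt : ∀ t, t ≤ m → z t = .inr (p, pd a d (z t)) := by
        intro t ht
        have h1 := hall t ht
        rw [h0] at h1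
        rcases h2 : z t with ⟨v, s'⟩ | ⟨q, y⟩
        · rw [h2] at h1
          simp [pc] at h1
        · rw [h2] at h1
          have : q = p := by simpa [pc] using h1
          rw [this]
          rfl
      have hC : IsC X (fun t => pd a d (z t)) m := by
        refine ⟨hm3, ?_, ?_, ?_⟩
        · intro t ht
          have h1 := hz.2.1 t ht
          rw [hzt t (by omega), hzt (t + 1) (by omega)] at h1
          exact h1.2.1
        · show pd a d (z m) = pd a d (z 0)
          rw [hz.2.2.1]
        · intro i j hi hj hij
          apply hz.2.2.2 i j hi hj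
          rw [hzt i (by omega), hzt j (by omega)]
          have hij' : pd a d (z i) = pd a d (z j) := hij
          rw [hij']
      exact cycLen D X g hX _ _ hC

/-! ### Distances -/

lemma near_path {g : ℕ} (hRA : R ≤ A) (hX : Big X g) (hab : X.Adj a b) (u v : V) (s s' : Bool)
    (p : (RG A R X a b d).Walk (.inl (u, s)) (.inl (v, s'))) (hp : p.IsPath) (hr : p.length ≤ g) :
    s = s' ∧ near A p.length u v := by
  classical
  have hinj : ∀ i j, i ≤ p.length → j ≤ p.length → p.getVert i = p.getVert j → i = j := by
    intro i j hi hj hij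
    exact hp.getVert_injOn (by rw [Set.mem_ofPred_eq]; exact hi)
      (by rw [Set.mem_ofPred_eq]; exact hj) hij
  have key : ∀ t, t ≤ p.length → ∃ w, p.getVert t = .inl (w, s) ∧ near A t u w := by
    intro t
    induction t with
    | zero =>
      intro _
      exact ⟨u, p.getVert_zero, near_refl 0 u⟩
    | succ t ih =>
      intro ht
      obtain ⟨w, hw, hnear⟩ := ih (by omega)
      have hadj := p.adj_getVert_succ (show t < p.length by omega)
      rw [hw] at hadj
      rcases h2 : p.getVert (t + 1) with ⟨w', s'⟩ | ⟨q, y⟩
      · rw [h2] at hadj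
        obtain ⟨h3, h4⟩ := hadj
        refine ⟨w', by rw [← h3], near_trans hnear (near_adj ?_)⟩
        cases s
        · simpa using h4
        · exact hRA (by simpa using h4)
      · exfalso
        have := exit A R X a b d hX hab (fun s => p.getVert (t + s)) (p.length - t) w s q y
          hw h2 (by omega) (fun s hs => p.adj_getVert_succ (by omega))
          (fun i j hi hin hj hjn hij => by
            have := hinj (t + i) (t + j) (by omega) (by omega) hij
            omega)
          (fun i hi hin hi0 => by
            have := hinj (t + i) (t + 0) (by omega) (by omega) hi0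
            omega)
          ⟨(v, s'), by
            show p.getVert (t + (p.length - t)) = _
            rw [show t + (p.length - t) = p.length by omega, p.getVert_length]⟩
        omega
  obtain ⟨w, hw, hnear⟩ := key p.length le_rfl
  rw [p.getVert_length] at hw
  have h1 := Prod.mk.inj (Sum.inl.inj hw)
  refine ⟨h1.2.symm, ?_⟩
  have h2 : w = v := h1.1.symm
  rw [h2] at hnear
  exact hnear

/-- from a gadget: the path leaves it at the vertex `p.1` of one of the copies -/
lemma near_gadget {g : ℕ} (hRA : R ≤ A) (hX : Big X g) (hab : X.Adj a b) (v : V) :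
    ∀ (w w' : WW V D d) (p : (RG A R X a b d).Walk w w'), w' = .inl (v, false) → p.IsPath →
    p.length ≤ g → near A p.length (pv d w) v := by
  intro w w' p
  induction p with
  | nil =>
    intro h _ _
    subst h
    exact near_refl 0 v
  | @cons x y z h p ih =>
    intro hz hp hl
    rw [Walk.length_cons] at hl ⊢
    rw [Walk.cons_isPath_iff] at hp
    have h1 := ih hz hp.1 (by omega)
    rcases hx : x with ⟨u, s⟩ | ⟨q, c⟩
    · subst hz
      subst hx
      have h2 := (near_path A R X a b d hRA hX hab u v s false (Walk.cons h p)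
        ((Walk.cons_isPath_iff h p).2 hp) (by rw [Walk.length_cons]; exact hl)).2
      rw [Walk.length_cons] at h2
      exact h2
    · subst hx
      have h2 : pv d y = q.1 := by
        rcases hy : y with ⟨u, s⟩ | ⟨q', c'⟩
        · rw [hy] at h
          exact h.1.symm
        · rw [hy] at h
          show q'.1 = q.1
          rw [h.1]
      show near A (p.length + 1) q.1 v
      rw [← h2]
      exact near_mono (by omega) h1

lemma near_RG {g : ℕ} (hRA : R ≤ A) (hX : Big X g) (hab : X.Adj a b) (w : WW V D d) (v : V)
    (r : ℕ) (hr : r ≤ g) (h : near (RG A R X a b d) r w (.inl (v, false))) :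
    near A r (pv d w) v := by
  classical
  obtain ⟨p, hp⟩ := h
  have hl : p.bypass.length ≤ r := p.length_bypass_le_length.trans hp
  exact near_mono hl (near_gadget A R X a b d hRA hX hab v w _ p.bypass rfl p.bypass_isPath
    (hl.trans hr))

/-! ### Degrees -/

lemma degree_inl [Finite V] [Finite D] (hR : ∀ v, (R.neighborSet v).ncard ≤ d) (v : V) (s : Bool) :
    ((RG R R X a b d).neighborSet (.inl (v, s))).ncard = d := by
  classical
  have h1 : (RG R R X a b d).neighborSet (.inl (v, s)) =
      (fun u => (.inl (u, s) : WW V D d)) '' R.neighborSet v ∪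
      (fun i : Fin d => (.inr ((v, i), en a b s) : WW V D d)) ''
        {i | i.val + (R.neighborSet v).ncard < d} := by
    ext w
    rcases w with ⟨u, t⟩ | ⟨p, x⟩
    · constructor
      · rintro ⟨h1, h2⟩
        left
        refine ⟨u, ?_, by rw [h1]⟩
        cases s <;> simpa using h2
      · rintro (⟨u', h1, h2⟩ | ⟨i, _, h2⟩)
        · have h3 := Prod.mk.inj (Sum.inl.inj h2)
          refine ⟨h3.2, ?_⟩
          rw [← h3.1]
          cases s <;> simpa using h1
        · exact absurd h2 (by simp)
    · constructor
      · rintro ⟨h1, h2, h3⟩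
        right
        refine ⟨p.2, ?_, ?_⟩
        · have h4 : p.2.val + (R.neighborSet p.1).ncard < d := h2
          rw [h1] at h4
          exact h4
        · rw [h3, ← h1]
      · rintro (⟨u', _, h2⟩ | ⟨i, h1, h2⟩)
        · exact absurd h2 (by simp)
        · have h3 := Prod.mk.inj (Sum.inr.inj h2)
          refine ⟨by rw [← h3.1], ?_, h3.2.symm⟩
          rw [← h3.1]
          exact h1
  rw [h1, Set.ncard_union_eq]
  · rw [Set.ncard_image_of_injective _ (fun u u' h => (Prod.mk.inj (Sum.inl.inj h)).1),
      Set.ncard_image_of_injective _ (fun i i' h => by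
        have := (Prod.mk.inj (Sum.inr.inj h)).1
        exact (Prod.mk.inj this).2)]
    have h2 := hR v
    have h3 : ({i | i.val + (R.neighborSet v).ncard < d} : Set (Fin d)).ncard =
        d - (R.neighborSet v).ncard := by
      have h4 : ({i | i.val + (R.neighborSet v).ncard < d} : Set (Fin d)) =
          ((Finset.univ.filter fun i : Fin d => i.val < d - (R.neighborSet v).ncard : Finset (Fin d)) :
            Set (Fin d)) := by
        ext i
        simp only [Set.mem_ofPred_eq, Finset.coe_filter, Finset.mem_univ, true_and]
        omega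
      rw [h4, Set.ncard_coe_finset, Fin.card_filter_val_lt]
      omega
    rw [h3]
    omega
  · rw [Set.disjoint_left]
    rintro w ⟨u, _, rfl⟩ ⟨i, _, h⟩
    exact absurd h (by simp)

lemma degree_inr [Finite V] [Finite D] (hX : ∀ x, (X.neighborSet x).ncard = d)
    (hab : X.Adj a b) (p : V × Fin d) (x : D) :
    ((RG R R X a b d).neighborSet (.inr (p, x))).ncard = d := by
  classical
  refine Eq.trans ?_ (hX x)
  by_cases hact : act R d p
  · let φ : D → WW V D d := fun y =>
      if s(x, y) = s(a, b) then .inl (p.1, decide (x = b)) else .inr (p, y)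
    have h1 : (RG R R X a b d).neighborSet (.inr (p, x)) = φ '' X.neighborSet x := by
      ext w
      rcases w with ⟨u, t⟩ | ⟨q, y⟩
      · constructor
        · rintro ⟨h1, _, h3⟩
          cases t with
          | false =>
            have hx : x = a := h3
            refine ⟨b, by rw [hx]; exact hab, ?_⟩
            have h4 : decide (x = b) = false := by
              rw [hx]; simpa using hab.ne
            show (if s(x, b) = s(a, b) then _ else _) = _
            rw [if_pos (by rw [hx]), h4, h1]
          | true =>
            have hx : x = b := h3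
            refine ⟨a, by rw [hx]; exact hab.symm, ?_⟩
            have h4 : decide (x = b) = true := by rw [hx]; simp
            show (if s(x, a) = s(a, b) then _ else _) = _
            rw [if_pos (by rw [hx, Sym2.eq_swap]), h4, h1]
        · rintro ⟨y, hy, h2⟩
          have h2' : (if s(x, y) = s(a, b) then (.inl (p.1, decide (x = b)) : WW V D d)
            else .inr (p, y)) = .inl (u, t) := h2
          split_ifs at h2' with h3
          have h4 := Prod.mk.inj (Sum.inl.inj h2')
          refine ⟨h4.1, hact, ?_⟩
          rw [← h4.2]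
          unfold en
          by_cases h5 : x = b
          · simp [h5]
          · rw [Sym2.eq_iff] at h3
            rcases h3 with h3 | h3
            · simp [h5, h3.1]
            · exact absurd h3.1 h5
      · constructor
        · rintro ⟨h1, h2, h3⟩
          refine ⟨y, h2, ?_⟩
          show (if s(x, y) = s(a, b) then _ else _) = _
          rw [if_neg (h3 hact), h1]
        · rintro ⟨y', hy, h2⟩
          have h2' : (if s(x, y') = s(a, b) then (.inl (p.1, decide (x = b)) : WW V D d)
            else .inr (p, y')) = .inr (q, y) := h2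
          split_ifs at h2' with h3
          have h4 := Prod.mk.inj (Sum.inr.inj h2')
          refine ⟨h4.1, ?_, fun _ => ?_⟩
          · rw [← h4.2]; exact hy
          · rw [← h4.2]; exact h3
    rw [h1]
    apply Set.ncard_image_of_injOn
    intro y hy y' hy' h
    have h' : (if s(x, y) = s(a, b) then (.inl (p.1, decide (x = b)) : WW V D d)
            else .inr (p, y)) = (if s(x, y') = s(a, b) then (.inl (p.1, decide (x = b)) : WW V D d)
            else .inr (p, y')) := h
    split_ifs at h' with h3 h4 h4
    · have := h3.trans h4.symm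
      exact Sym2.congr_right.1 this
    · exact (Prod.mk.inj (Sum.inr.inj h')).2
  · have h1 : (RG R R X a b d).neighborSet (.inr (p, x)) =
        (fun y => (.inr (p, y) : WW V D d)) '' X.neighborSet x := by
      ext w
      rcases w with ⟨u, t⟩ | ⟨q, y⟩
      · constructor
        · rintro ⟨_, h2, _⟩
          exact absurd h2 hact
        · rintro ⟨y, _, h2⟩
          exact absurd h2 (by simp)
      · constructor
        · rintro ⟨h1, h2, _⟩
          exact ⟨y, h2, by rw [h1]⟩
        · rintro ⟨y', h1, h2⟩
          have h4 := Prod.mk.inj (Sum.inr.inj h2)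
          refine ⟨h4.1, ?_, fun h => absurd h hact⟩
          rw [← h4.2]
          exact h1
    rw [h1]
    exact Set.ncard_image_of_injective _ fun y y' h => (Prod.mk.inj (Sum.inr.inj h)).2

end construction

theorem reg (hG : GadStmt) : RegStmt := by
  classical
  intro V _ A R d g hRA hA hR
  rcases Nat.eq_zero_or_pos d with hd | hd
  · -- no edges in R
    refine ⟨V, inferInstance, Function.Embedding.refl V, A, R, ?_, ?_, ?_, ?_, hA, ?_⟩
    · have : (A \ R).map (Function.Embedding.refl V) = A \ R := by
        ext u v; simp
      rw [this, sup_sdiff_cancel_right hRA]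
    · ext u v; simp
    · ext u v; simp
    · intro w
      have := hR w
      omega
    · exact ⟨id, fun _ => rfl, fun _ _ _ _ h => h⟩
  · obtain ⟨D, hD, X, a, b, hXd, hXg, hab⟩ := hG d g hd
    let f : V ↪ WW V D d := ⟨fun v => .inl (v, false), fun u v h =>
      (Prod.mk.inj (Sum.inl.inj h)).1⟩
    refine ⟨WW V D d, inferInstance, f, RG A R X a b d, RG R R X a b d, ?_, ?_, ?_, ?_,
      big_RG A R X a b d hRA hA hXg hab, ?_⟩
    · ext w w'
      rw [sup_adj]
      constructor
      · intro h
        rcases w with ⟨v, s⟩ | ⟨p, x⟩
        · rcases w' with ⟨u, t⟩ | ⟨q, y⟩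
          · obtain ⟨h1, h2⟩ := h
            cases s with
            | true =>
              left
              exact ⟨h1, by simpa using h2⟩
            | false =>
              subst h1
              have h3 : A.Adj v u := by simpa using h2
              by_cases h4 : R.Adj v u
              · left
                exact ⟨rfl, by simpa using h4⟩
              · right
                rw [map_adj]
                exact ⟨v, u, by rw [sdiff_adj]; exact ⟨h3, h4⟩, rfl, rfl⟩
          · left; exact h
        · rcases w' with ⟨u, t⟩ | ⟨q, y⟩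
          · left; exact h
          · left; exact h
      · rintro (h | h)
        · rcases w with ⟨v, s⟩ | ⟨p, x⟩
          · rcases w' with ⟨u, t⟩ | ⟨q, y⟩
            · obtain ⟨h1, h2⟩ := h
              refine ⟨h1, ?_⟩
              cases s with
              | true => simpa using h2
              | false =>
                have h3 : R.Adj v u := by simpa using h2
                simpa using hRA h3
            · exact h
          · rcases w' with ⟨u, t⟩ | ⟨q, y⟩
            · exact h
            · exact h
        · rw [map_adj] at h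
          obtain ⟨v, u, h1, rfl, rfl⟩ := h
          rw [sdiff_adj] at h1
          exact ⟨rfl, by simpa using h1.1⟩
    · ext u v
      show (RG A R X a b d).Adj (.inl (u, false)) (.inl (v, false)) ↔ _
      exact ⟨fun h => by simpa using h.2, fun h => ⟨rfl, by simpa using h⟩⟩
    · ext u v
      show (RG R R X a b d).Adj (.inl (u, false)) (.inl (v, false)) ↔ _
      exact ⟨fun h => by simpa using h.2, fun h => ⟨rfl, by simpa using h⟩⟩
    · rintro (⟨v, s⟩ | ⟨p, x⟩)
      · exact degree_inl R X a b d hR v s
      · exact degree_inr R X a b d hXd hab p x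
    · exact ⟨pv d, fun _ => rfl, fun w x r hr h => near_RG A R X a b d hRA hXg hab w x r hr h⟩

end Reg

end Pool.Agent.LLG.H48
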