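import Mathlib
import Pool.Agent.Helper22_LLG.Stmt
import Pool.Agent.Helper76_LAG.Near

/-!
# LLG, module JED: one more edge at every used sink
-/

set_option autoImplicit false

namespace Pool.Agent.LLG

open SimpleGraph Pool.Agent.LAG

namespace H48.Jed

theorem jed : JedStmt := by
  classical
  intro V _ A R P Z k c hRA hPR hck hR hP hP1 hP2 hZ
  -- the used sinks
  let Z' : Set V := {z | (P.neighborSet z).ncard + 1 = 2 * c}
  have hZ'Z : ∀ z ∈ Z', z ∈ Z := by
    intro z hz
    by_contra hcon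
    have h1 := hP z hcon
    have h2 : (P.neighborSet z).ncard + 1 = 2 * c := hz
    omega
  have hex : ∀ z ∈ Z', ∃ w, R.Adj z w ∧ ¬ P.Adj z w := by
    intro z hz
    by_contra hcon
    push Not at hcon
    have h1 : R.neighborSet z ⊆ P.neighborSet z := fun w hw => hcon w hw
    have h2 := Set.ncard_le_ncard h1 (Set.toFinite _)
    have h3 := hR z
    have h4 : (P.neighborSet z).ncard + 1 = 2 * c := hz
    omega
  choose! w hwR hwP using hex
  let J : SimpleGraph V :=
    { Adj := fun u v => (u ∈ Z' ∧ v = w u) ∨ (v ∈ Z' ∧ u = w v)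
      symm := ⟨fun u v h => h.symm⟩
      loopless := ⟨by
        rintro u (⟨h1, h2⟩ | ⟨h1, h2⟩)
        · exact (hwR u h1).ne h2
        · exact (hwR u h1).ne h2⟩ }
  have hJ : ∀ u v, J.Adj u v ↔ (u ∈ Z' ∧ v = w u) ∨ (v ∈ Z' ∧ u = w v) := fun _ _ => Iff.rfl
  have hJR : J ≤ R := by
    intro u v h
    rcases (hJ u v).1 h with ⟨h1, rfl⟩ | ⟨h1, rfl⟩
    · exact hwR u h1
    · exact (hwR v h1).symm
  have hdis : ∀ u v, J.Adj u v → ¬ P.Adj u v := by
    intro u v h
    rcases (hJ u v).1 h with ⟨h1, rfl⟩ | ⟨h1, rfl⟩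
    · exact hwP u h1
    · exact fun h2 => hwP v h1 h2.symm
  -- the sink of an edge
  have key : ∀ a b, J.Adj a b → ∃ z ∈ Z', s(a, b) = s(z, w z) ∧ near A 1 z a := by
    intro a b hab
    rcases (hJ a b).1 hab with ⟨h1, rfl⟩ | ⟨h1, rfl⟩
    · exact ⟨a, h1, rfl, near_refl 1 a⟩
    · exact ⟨b, h1, Sym2.eq_swap, near_adj (hRA (hwR b h1))⟩
  refine ⟨J, ?_, ?_, ?_, ?_⟩
  · intro u v h
    rw [sdiff_adj]
    exact ⟨hJR h, hdis u v h⟩
  · intro u v h
    obtain ⟨z, hz, -, hn⟩ := key u v h
    exact ⟨z, hZ'Z z hz, near_symm hn⟩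
  · intro u v u' v' h h' hn
    obtain ⟨z, hz, e1, n1⟩ := key u v h
    obtain ⟨z', hz', e2, n2⟩ := key u' v' h'
    have h3 : z = z' := by
      by_contra hne
      exact hZ z (hZ'Z z hz) z' (hZ'Z z' hz') hne
        (near_mono (by norm_num) (near_trans (near_trans n1 hn) (near_symm n2)))
    rw [e1, e2, h3]
  · intro v
    have e : (R \ (P ⊔ J)).neighborSet v = R.neighborSet v \ (P.neighborSet v ∪ J.neighborSet v) := by
      ext u
      simp only [mem_neighborSet, sdiff_adj, sup_adj, Set.mem_sdiff, Set.mem_union]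
    have hs : P.neighborSet v ∪ J.neighborSet v ⊆ R.neighborSet v := by
      rintro u (h | h)
      · exact hPR h
      · exact hJR h
    rw [e, Set.ncard_sdiff hs (Set.toFinite _), hR v]
    have hd : Disjoint (P.neighborSet v) (J.neighborSet v) := by
      rw [Set.disjoint_left]
      intro u h1 h2
      exact hdis v u h2 h1
    rw [Set.ncard_union_eq hd (Set.toFinite _) (Set.toFinite _)]
    by_cases hv : v ∈ Z'
    · have h1 : (P.neighborSet v).ncard + 1 = 2 * c := hv
      have h2 : 1 ≤ (J.neighborSet v).ncard := by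
        have h3 : 0 < (J.neighborSet v).ncard := by
          rw [Set.ncard_pos (Set.toFinite _)]
          exact ⟨w v, (hJ _ _).2 (Or.inl ⟨hv, rfl⟩)⟩
        exact h3
      omega
    · have h1 : ¬ (P.neighborSet v).ncard + 1 = 2 * c := hv
      have h2 := hP1 v
      have h3 := hP2 v
      omega

end H48.Jed

theorem H48.jed : JedStmt := H48.Jed.jed

end Pool.Agent.LLG
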