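import Pool.Agent.Helper22_LLG.Stmt
import Pool.Agent.Helper76_LAG.Near
import Pool.Agent.Helper33_LAG.Basl
import Pool.Agent.Helper7_LAG.Hcy

/-!
# LLG, module MATCH: the graphs of maximum degree four of one round and the sinks
-/

set_option autoImplicit false

namespace Pool.Agent.LLG

open SimpleGraph Pool.Agent.LAG

namespace H48.Match

section basics

variable {V : Type}

lemma degA [Fintype V] {A R : SimpleGraph V} {Q : Set V} {k g q : ℕ} (hS : Stt A R Q k g q)
    (v : V) : (A.neighborSet v).ncard ≤ 2 * k + 2 := by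
  classical
  have h1 : A.neighborSet v ⊆ R.neighborSet v ∪ ({b | (A \ R).Reachable v b} \ {v}) := by
    intro w hw
    by_cases h : R.Adj v w
    · exact Or.inl h
    · refine Or.inr ⟨?_, ?_⟩
      · have h2 : (A \ R).Adj v w := by
          rw [sdiff_adj]
          exact ⟨hw, h⟩
        exact h2.reachable
      · intro h2
        rw [Set.mem_singleton_iff] at h2
        have h3 : A.Adj v w := hw
        exact h3.ne h2.symm
  have h2 := Set.ncard_le_ncard h1 (Set.toFinite _)
  have h3 := Set.ncard_union_le (R.neighborSet v) ({b | (A \ R).Reachable v b} \ {v})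
  have h4 : ({b | (A \ R).Reachable v b} \ {v} : Set V).ncard =
      ({b | (A \ R).Reachable v b} : Set V).ncard - 1 :=
    Set.ncard_sdiff_singleton_of_mem (Reachable.refl v)
  have h5 := hS.m3 v
  have h6 := hS.deg v
  omega

lemma cyc_eq (z : ℕ → V) (n : ℕ) (t : ℕ) (ht : t ≤ n) :
    cyc (fun i : Fin (n + 1) => z i.val) t = z t := by
  unfold cyc
  have h : (Fin.ofNat (n + 1) t).val = t := by
    rw [Fin.val_ofNat]
    exact Nat.mod_eq_of_lt (by omega)
  simp only [h]

lemma cyc_end (z : ℕ → V) (n : ℕ) :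
    cyc (fun i : Fin (n + 1) => z i.val) (n + 1) = z 0 := by
  unfold cyc
  have h : (Fin.ofNat (n + 1) (n + 1)).val = 0 := by
    rw [Fin.val_ofNat]
    exact Nat.mod_self _
  simp only [h]

lemma isP_congr {G : SimpleGraph V} {z z' : ℕ → V} {n : ℕ} (h : ∀ t, t ≤ n → z' t = z t)
    (hz : IsP G z n) : IsP G z' n := by
  refine ⟨fun t ht => ?_, fun s t hs ht hst => ?_⟩
  · rw [h t (by omega), h (t + 1) (by omega)]
    exact hz.1 t ht
  · rw [h s hs, h t ht] at hst
    exact hz.2 s t hs ht hst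

lemma isC_congr {G : SimpleGraph V} {z z' : ℕ → V} {n : ℕ} (h : ∀ t, t ≤ n → z' t = z t)
    (hz : IsC G z n) : IsC G z' n := by
  obtain ⟨h3, h4, h5, h6⟩ := hz
  refine ⟨h3, fun t ht => ?_, ?_, fun s t hs ht hst => ?_⟩
  · rw [h t (by omega), h (t + 1) (by omega)]
    exact h4 t ht
  · rw [h n (by omega), h 0 (by omega)]
    exact h5
  · rw [h s hs.le, h t ht.le] at hst
    exact h6 s t hs ht hst

lemma isP_mono {G H : SimpleGraph V} (hHG : H ≤ G) {z : ℕ → V} {m : ℕ}
    (h : IsP H z m) : IsP G z m :=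
  ⟨fun t ht => hHG (h.1 t ht), h.2⟩

lemma heavy_congr {A : SimpleGraph V} {Q : Set V} {z z' : ℕ → V} {n : ℕ}
    (h : ∀ t, t ≤ n → z' t = z t) (hz : Heavy A Q z n) : Heavy A Q z' n := by
  unfold Heavy at *
  have e : {t : ℕ | t ≤ n ∧ z' t ∈ Zone A Q} = {t : ℕ | t ≤ n ∧ z t ∈ Zone A Q} := by
    ext t
    constructor
    · rintro ⟨h1, h2⟩
      rw [h t h1] at h2
      exact ⟨h1, h2⟩
    · rintro ⟨h1, h2⟩
      rw [← h t h1] at h2
      exact ⟨h1, h2⟩
  rw [e]
  exact hz

lemma arc_of {O : V → V → Prop} (hO : ∀ x y, O x y → ¬ O y x) {x y : V} (h : O x y) :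
    arc O x y = (x, y) ∧ arc O y x = (x, y) := by
  classical
  refine ⟨?_, ?_⟩
  · unfold arc
    rw [if_pos h]
  · unfold arc
    rw [if_neg (hO x y h)]

lemma sub_one {s : Set V} (h : ∀ x ∈ s, ∀ y ∈ s, x = y) : s.ncard ≤ 1 := by
  by_cases hs : s.Nonempty
  · obtain ⟨a, ha⟩ := hs
    have h1 : s = {a} := by
      ext x
      rw [Set.mem_singleton_iff]
      constructor
      · exact fun hx => h x hx a ha
      · rintro rfl
        exact ha
    rw [h1, Set.ncard_singleton]
  · rw [Set.not_nonempty_iff_eq_empty] at hs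
    rw [hs, Set.ncard_empty]
    exact Nat.zero_le _

end basics

section graph

variable {V : Type} {T : ℕ}

/-- The graph of one host. -/
def HG (m : Fin (2 * T) → V → V → Prop) (hm : ∀ i x y, m i x y → x ≠ y) (t : Fin T) :
    SimpleGraph V where
  Adj x y := ∃ i : Fin (2 * T), i.val / 2 = t.val ∧ (m i x y ∨ m i y x)
  symm := ⟨fun _ _ ⟨i, h1, h2⟩ => ⟨i, h1, h2.symm⟩⟩
  loopless := ⟨fun x ⟨i, _, h2⟩ => h2.elim (fun h => hm i x x h rfl) (fun h => hm i x x h rfl)⟩

/-- the arcs of colour `i` at `v` -/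
def arm (m : Fin (2 * T) → V → V → Prop) (v : V) (p : Fin (2 * T) × Bool) : Set V :=
  {w | if p.2 then m p.1 v w else m p.1 w v}

lemma nbr (m : Fin (2 * T) → V → V → Prop) (hm : ∀ i x y, m i x y → x ≠ y) (t : Fin T) (v : V)
    (i0 i1 : Fin (2 * T)) (h0 : i0.val = 2 * t.val) (h1 : i1.val = 2 * t.val + 1) :
    (HG m hm t).neighborSet v =
      (arm m v (i0, true) ∪ arm m v (i0, false)) ∪ (arm m v (i1, true) ∪ arm m v (i1, false)) := by
  ext w
  simp only [mem_neighborSet, Set.mem_union]
  constructor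
  · rintro ⟨i, hi, h⟩
    have h2 : i = i0 ∨ i = i1 := by
      rcases Nat.lt_or_ge i.val (2 * t.val + 1) with h3 | h3
      · left
        apply Fin.ext
        omega
      · right
        apply Fin.ext
        omega
    rcases h2 with rfl | rfl <;> rcases h with h | h
    · exact Or.inl (Or.inl h)
    · exact Or.inl (Or.inr h)
    · exact Or.inr (Or.inl h)
    · exact Or.inr (Or.inr h)
  · rintro ((h | h) | (h | h))
    · exact ⟨i0, by omega, Or.inl h⟩
    · exact ⟨i0, by omega, Or.inr h⟩
    · exact ⟨i1, by omega, Or.inl h⟩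
    · exact ⟨i1, by omega, Or.inr h⟩

end graph

theorem matching (hRll : RllStmt) (hHmt : HmtStmt) (hMoo : MooStmt) (hDen : DenStmt)
    (hEvs : EvsStmt) (hOri : OriStmt) : MatchStmt := by
  classical
  intro V _ A R Q k T b m s q h N n η hL hE hmh hS hreg
  obtain ⟨O, hRO, hOa, hOd⟩ := hOri V R k hreg
  have hk16 : 16 ≤ k := hL.1
  have hT4 : 4 ≤ T := hL.2.1
  have h200 : 200 ≤ h := hE.2.2.2.2.1
  have hOR : ∀ x y, O x y → R.Adj x y := fun x y hxy => (hRO x y).2 (Or.inl hxy)
  have hBR : Big R (2 * h) := hS.big.le hS.le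
  have hSp : Sparse (dbl O) k m := hMoo V R O k h m hOR hOa hBR hk16 hmh
  have hB400 : Big A 400 := hS.big.mono (by omega)
  have hDe := hDen V A R O Q k q (by omega) hS.le hOR hOa hOd hB400 hS.bal
  obtain ⟨hEv1, hEv2⟩ := hEvs V A R O Q k T q h N n η hE hS.le (fun v => (hreg v).le) hS.big hRO
    hOa hS.bal
  have hball : ∀ v, {x | near A 2000 x v}.ncard ≤ (2 * k + 3) ^ 2000 := by
    intro v
    have h1 := ball V A (2 * k + 2) (degA hS) 2000 v
    have h2 : Nat.card {x : V // near A 2000 x v} = ({x : V | near A 2000 x v} : Set V).ncard :=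
      Nat.card_coe_set_eq _
    rw [h2] at h1
    exact h1
  have : Fintype (EvI A R Q N n) := Fintype.ofFinite _
  obtain ⟨col, lab, hl1, hl2, hev, hH1, hH2⟩ := hRll V O k 2 T b m s q ((2 * k + 3) ^ 2000)
    (max N n) η (alw A Q) (fun u v => near A 2000 u v) (EvI A R Q N n) (evA A R O Q N n)
    (by norm_num) hOd hSp hDe (fun _ _ hxy => near_symm hxy) hball hEv1 hEv2 hL
  -- the matchings
  have hM : ∀ i : Fin (2 * T), ∃ mm : V → V → Prop, (∀ x y, mm x y → O x y ∧ col x y = i) ∧
      (∀ x y y', mm x y → mm x y' → y = y') ∧ (∀ x x' y, mm x y → mm x' y → x = x') ∧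
      (∀ x, lab x ≠ some (i, true) → ∃ y, mm x y) ∧
      ∀ y, lab y ≠ some (i, false) → ∃ x, mm x y := by
    intro i
    obtain ⟨mm, a1, a2, a3, a4, a5⟩ := hHmt V (fun x y => O x y ∧ col x y = i)
      {x | lab x = some (i, true)} {y | lab y = some (i, false)} (hH1 i) (hH2 i)
    exact ⟨mm, a1, a2, a3, a4, a5⟩
  choose mm a1 a2 a3 a4 a5 using hM
  have hne : ∀ i x y, mm i x y → x ≠ y := fun i x y hxy => (hOR x y (a1 i x y hxy).1).ne
  have hHadj : ∀ t x y, (HG mm hne t).Adj x y ↔
      ∃ i : Fin (2 * T), i.val / 2 = t.val ∧ (mm i x y ∨ mm i y x) := fun _ _ _ => Iff.rfl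
  have hHR : ∀ t, HG mm hne t ≤ R := by
    intro t x y hxy
    obtain ⟨i, hi, h1 | h1⟩ := (hHadj t x y).1 hxy
    · exact hOR x y (a1 i x y h1).1
    · exact (hOR y x (a1 i y x h1).1).symm
  have hcol : ∀ t x y, (HG mm hne t).Adj x y →
      (col (arc O x y).1 (arc O x y).2).val / 2 = t.val := by
    intro t x y hxy
    obtain ⟨i, hi, h1 | h1⟩ := (hHadj t x y).1 hxy
    · obtain ⟨h2, h3⟩ := a1 i x y h1
      rw [(arc_of hOa h2).1, h3]
      exact hi
    · obtain ⟨h2, h3⟩ := a1 i y x h1
      rw [(arc_of hOa h2).2, h3]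
      exact hi
  have harc : ∀ t (z : ℕ → V) (l : ℕ), (∀ s, s < l → (HG mm hne t).Adj (z s) (z (s + 1))) →
      ∀ e ∈ arcs O z l, (col e.1 e.2).val / 2 = t.val := by
    intro t z l hz e he
    unfold arcs at he
    rw [Finset.mem_image] at he
    obtain ⟨s, hs, rfl⟩ := he
    exact hcol t _ _ (hz s (Finset.mem_range.mp hs))
  -- degrees
  have harm1 : ∀ v p, (arm mm v p).ncard ≤ 1 := by
    rintro v ⟨i, bb⟩
    refine sub_one ?_
    intro x hx y hy
    cases bb
    · exact a3 i x y v hx hy
    · exact a2 i v x y hx hy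
  have harm2 : ∀ v p, lab v ≠ some p → (arm mm v p).ncard = 1 := by
    rintro v ⟨i, bb⟩ hp
    have h1 := harm1 v (i, bb)
    have h2 : 0 < (arm mm v (i, bb)).ncard := by
      rw [Set.ncard_pos (Set.toFinite _)]
      cases bb
      · obtain ⟨x, hx⟩ := a5 i v hp
        exact ⟨x, hx⟩
      · obtain ⟨x, hx⟩ := a4 i v hp
        exact ⟨x, hx⟩
    omega
  have hdis : ∀ v p p', p ≠ p' → Disjoint (arm mm v p) (arm mm v p') := by
    rintro v ⟨i, bb⟩ ⟨i', bb'⟩ hp
    rw [Set.disjoint_left]
    intro w h1 h2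
    cases bb <;> cases bb'
    · have e1 := (a1 i w v h1).2
      have e2 := (a1 i' w v h2).2
      exact hp (by rw [← e1, ← e2])
    · exact hOa _ _ (a1 i w v h1).1 (a1 i' v w h2).1
    · exact hOa _ _ (a1 i v w h1).1 (a1 i' w v h2).1
    · have e1 := (a1 i v w h1).2
      have e2 := (a1 i' v w h2).2
      exact hp (by rw [← e1, ← e2])
  have hdeg : ∀ (t : Fin T) v, ∃ i0 i1 : Fin (2 * T), i0.val / 2 = t.val ∧ i1.val / 2 = t.val ∧
      i0 ≠ i1 ∧ (∀ i : Fin (2 * T), i.val / 2 = t.val → i = i0 ∨ i = i1) ∧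
      ((HG mm hne t).neighborSet v).ncard = ((arm mm v (i0, true)).ncard +
        (arm mm v (i0, false)).ncard) + ((arm mm v (i1, true)).ncard +
        (arm mm v (i1, false)).ncard) := by
    intro t v
    have ht := t.2
    refine ⟨⟨2 * t.val, by omega⟩, ⟨2 * t.val + 1, by omega⟩, ?_, ?_, ?_, ?_, ?_⟩
    · show 2 * t.val / 2 = t.val
      omega
    · show (2 * t.val + 1) / 2 = t.val
      omega
    · intro h1
      have h2 : 2 * t.val = 2 * t.val + 1 := congrArg Fin.val h1
      omega
    · intro i hi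
      rcases Nat.lt_or_ge i.val (2 * t.val + 1) with h3 | h3
      · left
        apply Fin.ext
        show i.val = 2 * t.val
        omega
      · right
        apply Fin.ext
        show i.val = 2 * t.val + 1
        omega
    · have hne01 : (⟨2 * t.val, by omega⟩ : Fin (2 * T)) ≠ ⟨2 * t.val + 1, by omega⟩ := by
        intro h1
        have h2 : 2 * t.val = 2 * t.val + 1 := congrArg Fin.val h1
        omega
      rw [nbr mm hne t v ⟨2 * t.val, by omega⟩ ⟨2 * t.val + 1, by omega⟩ rfl rfl,
        Set.ncard_union_eq _ (Set.toFinite _) (Set.toFinite _),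
        Set.ncard_union_eq _ (Set.toFinite _) (Set.toFinite _),
        Set.ncard_union_eq _ (Set.toFinite _) (Set.toFinite _)]
      · exact hdis v _ _ (fun h1 => Bool.noConfusion (Prod.ext_iff.1 h1).2)
      · exact hdis v _ _ (fun h1 => Bool.noConfusion (Prod.ext_iff.1 h1).2)
      · rw [Set.disjoint_union_left, Set.disjoint_union_right, Set.disjoint_union_right]
        refine ⟨⟨hdis v _ _ ?_, hdis v _ _ ?_⟩, ⟨hdis v _ _ ?_, hdis v _ _ ?_⟩⟩ <;>
          exact fun h1 => hne01 (Prod.ext_iff.1 h1).1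
  -- missing arcs
  let mis' : V → Fin T → ℕ := fun v t =>
    match lab v with
    | none => 0
    | some p => if p.1.val / 2 = t.val then 1 else 0
  have hmis1 : ∀ v, (∑ t, mis' v t) ≤ 1 := by
    intro v
    rcases hv : lab v with _ | p
    · have e : ∀ t, mis' v t = 0 := fun t => by simp only [mis', hv]
      rw [Finset.sum_congr rfl (fun t _ => e t)]
      simp
    · have e : ∀ t, mis' v t = if p.1.val / 2 = t.val then 1 else 0 := fun t => by
        simp only [mis', hv]
      rw [Finset.sum_congr rfl (fun t _ => e t), ← Finset.card_filter, Finset.card_le_one]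
      intro t ht t' ht'
      rw [Finset.mem_filter] at ht ht'
      apply Fin.ext
      rw [← ht.2, ← ht'.2]
  have hmis2 : ∀ v t, 4 ≤ ((HG mm hne t).neighborSet v).ncard + mis' v t := by
    intro v t
    obtain ⟨i0, i1, e0, e1, hne01, -, hc⟩ := hdeg t v
    rw [hc]
    rcases hv : lab v with _ | p
    · rw [harm2 v _ (by rw [hv]; simp), harm2 v _ (by rw [hv]; simp), harm2 v _ (by rw [hv]; simp),
        harm2 v _ (by rw [hv]; simp)]
      omega
    · have e : mis' v t = if p.1.val / 2 = t.val then 1 else 0 := by simp only [mis', hv]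
      have hA : ∀ p', p' ≠ p → (arm mm v p').ncard = 1 := by
        intro p' hp'
        apply harm2
        rw [hv]
        exact fun h1 => hp' (Option.some.inj h1).symm
      by_cases q1 : p = (i0, true)
      · rw [hA (i0, false) (by rw [q1]; simp), hA (i1, true) (by rw [q1]; simpa using hne01.symm),
          hA (i1, false) (by rw [q1]; simp), e, q1, if_pos e0]
        omega
      · by_cases q2 : p = (i0, false)
        · rw [hA (i0, true) (by rw [q2]; simp), hA (i1, true) (by rw [q2]; simp),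
            hA (i1, false) (by rw [q2]; simpa using hne01.symm), e, q2, if_pos e0]
          omega
        · by_cases q3 : p = (i1, true)
          · rw [hA (i0, true) (by rw [q3]; simpa using hne01), hA (i0, false) (by rw [q3]; simp),
              hA (i1, false) (by rw [q3]; simp), e, q3, if_pos e1]
            omega
          · by_cases q4 : p = (i1, false)
            · rw [hA (i0, true) (by rw [q4]; simp), hA (i0, false) (by rw [q4]; simpa using hne01),
                hA (i1, true) (by rw [q4]; simp), e, q4, if_pos e1]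
              omega
            · rw [hA _ (Ne.symm q1), hA _ (Ne.symm q2), hA _ (Ne.symm q3), hA _ (Ne.symm q4)]
              omega
  refine ⟨fun t => HG mm hne t, {v | lab v ≠ none}, hHR, ?_, ?_, ?_, ?_, ?_, ?_, ?_, ?_⟩
  · -- disjoint
    intro t t' htt
    rw [disjoint_iff_inf_le]
    intro x y hxy
    have h1 := hcol t x y hxy.1
    have h2 := hcol t' x y hxy.2
    exact absurd (Fin.ext (h1.symm.trans h2)) htt
  · intro t v
    obtain ⟨i0, i1, -, -, -, -, hc⟩ := hdeg t v
    show ((HG mm hne t).neighborSet v).ncard ≤ 4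
    rw [hc]
    have b1 := harm1 v (i0, true)
    have b2 := harm1 v (i0, false)
    have b3 := harm1 v (i1, true)
    have b4 := harm1 v (i1, false)
    omega
  · intro v hv t
    obtain ⟨i0, i1, -, -, -, -, hc⟩ := hdeg t v
    show ((HG mm hne t).neighborSet v).ncard = 4
    have hv' : lab v = none := by
      by_contra h1
      exact hv h1
    rw [hc, harm2 v _ (by rw [hv']; simp), harm2 v _ (by rw [hv']; simp),
      harm2 v _ (by rw [hv']; simp), harm2 v _ (by rw [hv']; simp)]
  · intro v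
    show 4 * T ≤ (∑ t, ((HG mm hne t).neighborSet v).ncard) + 1
    have h1 : ∑ _t : Fin T, 4 ≤ ∑ t, (((HG mm hne t).neighborSet v).ncard + mis' v t) :=
      Finset.sum_le_sum fun t _ => hmis2 v t
    rw [Finset.sum_const, Finset.card_univ, Fintype.card_fin, smul_eq_mul,
      Finset.sum_add_distrib] at h1
    have h2 := hmis1 v
    omega
  · -- girth
    intro t v c hc
    show N < c.length
    by_contra hcon
    push Not at hcon
    have hC := Hcy.isC_of_cycle _ c hc
    have h3 : 3 ≤ c.length := hC.1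
    obtain ⟨l, hl⟩ : ∃ l, c.length = l + 1 := ⟨c.length - 1, by omega⟩
    rw [hl] at hC
    have hz : ∀ s, s ≤ l + 1 → cyc (fun i : Fin (l + 1) => c.getVert i.val) s = c.getVert s := by
      intro s hs
      rcases Nat.lt_or_ge l s with h1 | h1
      · have h2 : s = l + 1 := by omega
        rw [h2, cyc_end, hC.2.2.1]
      · exact cyc_eq _ l s h1
    have hC' : IsC (HG mm hne t) (cyc (fun i : Fin (l + 1) => c.getVert i.val)) (l + 1) :=
      isC_congr hz hC
    have hC'' : IsC R (cyc (fun i : Fin (l + 1) => c.getVert i.val)) (l + 1) :=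
      Hcy.isC_mono (hHR t) hC'
    refine hev (Sum.inl ⟨⟨⟨l, by omega⟩, fun i : Fin (l + 1) => c.getVert i.val⟩, hC''⟩)
      ⟨t.val, ?_⟩
    intro e he
    exact harc t (cyc (fun i : Fin (l + 1) => c.getVert i.val)) (l + 1) hC'.2.1 e he
  · -- heavy paths
    intro t z hz hH
    have hzz : ∀ s, s ≤ n → cyc (fun i : Fin (n + 1) => z i.val) s = z s :=
      fun s hs => cyc_eq z n s hs
    have hP' : IsP (HG mm hne t) (cyc (fun i : Fin (n + 1) => z i.val)) n := isP_congr hzz hz
    refine hev (Sum.inr ⟨fun i : Fin (n + 1) => z i.val, isP_mono (hHR t) hP',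
      heavy_congr hzz hH⟩) ⟨t.val, ?_⟩
    intro e he
    exact harc t (cyc (fun i : Fin (n + 1) => z i.val)) n hP'.1 e he
  · intro x hx y hy hxy hn
    rcases hl2 x y hxy hn with h1 | h1
    · exact hx h1
    · exact hy h1
  · intro x hx y hy hn
    exact hl1 x hx y hy hn

end H48.Match

theorem H48.match_ (hRll : RllStmt) (hHmt : HmtStmt) (hMoo : MooStmt) (hDen : DenStmt)
    (hEvs : EvsStmt) (hOri : OriStmt) : MatchStmt :=
  H48.Match.matching hRll hHmt hMoo hDen hEvs hOri

end Pool.Agent.LLG
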