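import Pool.Agent.Helper76_LAG.Stmt
import Pool.Agent.Helper73_LAG.Mz

/-!
# LLG, module MZR: the linear forest which is taken out first, with any separation

This is the module MZ of LAG with the constant 82 replaced by a parameter.
-/

set_option autoImplicit false

namespace Pool.Agent.LLG.H48

open SimpleGraph Pool.Agent.LAG

/-- MZR: the linear forest which is taken out first (empty if `Δ` is even); the vertices of degree
two are separated by `ρ`. -/
def MzrStmt : Prop := ∀ (V : Type) [Fintype V] (G : SimpleGraph V) (Δ ρ : ℕ), 82 ≤ ρ →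
    Big G (4 * ρ + 14) → (∀ v, (G.neighborSet v).ncard ≤ Δ) →
    ∃ (M : SimpleGraph V) (U : Set V), M ≤ G ∧ M.IsAcyclic ∧
      (∀ v, (M.neighborSet v).ncard ≤ 2) ∧ (∀ v, v ∉ U → (M.neighborSet v).ncard ≤ 1) ∧
      (∀ u ∈ U, ∀ u' ∈ U, u ≠ u' → ¬ near G ρ u u') ∧
      (∀ v, (G.neighborSet v).ncard ≤ 2 * (Δ / 2) + (M.neighborSet v).ncard) ∧
      (∀ a b, M.Reachable a b → near M 2 a b) ∧ ∀ a, {b | M.Reachable a b}.ncard ≤ 3

end Pool.Agent.LLG.H48

namespace Pool.Agent.LLG.H48.Mzr

open SimpleGraph Pool.Agent.LAG Pool.Agent.LAG.Mz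

variable {V : Type}

theorem odd_case (hTut : TutStmt) (ρ : ℕ) (hρ : 82 ≤ ρ) [Fintype V] (G : SimpleGraph V) (Δ : ℕ) (h3 : 3 ≤ Δ)
    (hodd : 2 * (Δ / 2) + 1 = Δ) (hG : Big G (4 * ρ + 14)) (hd : ∀ v, (G.neighborSet v).ncard ≤ Δ) :
    ∃ (M : SimpleGraph V) (U : Set V), M ≤ G ∧ M.IsAcyclic ∧
      (∀ v, (M.neighborSet v).ncard ≤ 2) ∧ (∀ v, v ∉ U → (M.neighborSet v).ncard ≤ 1) ∧
      (∀ u ∈ U, ∀ u' ∈ U, u ≠ u' → ¬ near G ρ u u') ∧
      (∀ v, (G.neighborSet v).ncard ≤ 2 * (Δ / 2) + (M.neighborSet v).ncard) ∧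
      (∀ a b, M.Reachable a b → near M 2 a b) ∧ ∀ a, {b | M.Reachable a b}.ncard ≤ 3 := by
  classical
  -- a maximal separated set
  obtain ⟨W, hW, hmax⟩ : ∃ W : Set V, (∀ w ∈ W, ∀ w' ∈ W, w ≠ w' → ¬ near G (ρ + 2) w w') ∧
      ∀ v, ∃ w ∈ W, near G (ρ + 2) v w := by
    have hfin := Set.toFinite {W : Set V | ∀ w ∈ W, ∀ w' ∈ W, w ≠ w' → ¬ near G (ρ + 2) w w'}
    obtain ⟨W, hWm⟩ := hfin.exists_maximal ⟨∅, by simp⟩
    refine ⟨W, hWm.1, fun v => ?_⟩
    by_contra hcon
    push Not at hcon
    have hins : insert v W ∈ {W : Set V | ∀ w ∈ W, ∀ w' ∈ W, w ≠ w' → ¬ near G (ρ + 2) w w'} := by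
      intro w hw w' hw' hne
      rcases hw with rfl | hw
      · rcases hw' with rfl | hw'
        · exact absurd rfl hne
        · exact hcon w' hw'
      · rcases hw' with rfl | hw'
        · exact fun h => hcon w hw (near_symm h)
        · exact hWm.1 w hw w' hw' hne
    have := hWm.2 hins (Set.subset_insert v W)
    have hv : v ∈ W := this (Set.mem_insert v W)
    exact hcon v hv (near_refl G (ρ + 2) v)
  obtain ⟨M0, hM0G, hM01, hM0c⟩ := hTut V G Δ (ρ + 2) (by omega) (big_mono hG (by omega)) hd W hmax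
  -- bad vertices
  set bad : V → Prop := fun w => w ∈ W ∧ (G.neighborSet w).ncard = Δ ∧ ∀ x, ¬ M0.Adj w x
    with hbad
  have hex : ∀ w, bad w → ∃ u, G.Adj w u := by
    intro w hw
    have : (G.neighborSet w).Nonempty := by
      rw [← Set.ncard_pos (Set.toFinite _), hw.2.1]
      omega
    exact this
  choose! uu huu using hex
  have hsep : ∀ w w', bad w → bad w' → ∀ r, r ≤ (ρ + 2) → near G r w w' → w = w' := by
    intro w w' hw hw' r hr h
    by_contra hne
    exact hW w hw.1 w' hw'.1 hne (near_mono h hr)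
  set M : SimpleGraph V :=
    { Adj := fun a b => M0.Adj a b ∨ (bad a ∧ b = uu a) ∨ (bad b ∧ a = uu b)
      symm := ⟨by
        intro a b h
        rcases h with h | h | h
        · exact Or.inl h.symm
        · exact Or.inr (Or.inr h)
        · exact Or.inr (Or.inl h)⟩
      loopless := ⟨by
        intro a h
        rcases h with h | ⟨h, h'⟩ | ⟨h, h'⟩
        · exact h.ne rfl
        · exact (huu a h).ne h'
        · exact (huu a h).ne h'⟩ } with hM
  have hadj : ∀ a b, M.Adj a b ↔ (M0.Adj a b ∨ (bad a ∧ b = uu a) ∨ (bad b ∧ a = uu b)) :=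
    fun a b => Iff.rfl
  have hMG : M ≤ G := by
    intro a b h
    rcases (hadj a b).1 h with h0 | ⟨h0, e⟩ | ⟨h0, e⟩
    · exact hM0G h0
    · rw [e]
      exact huu a h0
    · rw [e]
      exact (huu b h0).symm
  -- facts about bad vertices
  have f1 : ∀ w w', bad w → bad w' → w = uu w' → False := by
    intro w w' hw hw' h
    have h1 := near_adj (huu w' hw')
    rw [← h] at h1
    have h2 := hsep w' w hw' hw 1 (by omega) h1
    have h4 := huu w' hw'
    rw [← h, h2] at h4
    exact h4.ne rfl
  have f2 : ∀ w w', bad w → bad w' → uu w = uu w' → w = w' := by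
    intro w w' hw hw' h
    have h1 := near_adj (huu w hw)
    have h2 := near_symm (near_adj (huu w' hw'))
    rw [h] at h1
    exact hsep w w' hw hw' _ (by omega) (near_trans h1 h2)
  have f3 : ∀ w w' x, bad w → bad w' → M0.Adj (uu w) x → x = uu w' → False := by
    intro w w' x hw hw' hx h
    have h1 := near_adj (huu w hw)
    have h2 := near_adj (hM0G hx)
    have h4 := near_symm (near_adj (huu w' hw'))
    rw [← h] at h4
    have h5 := hsep w w' hw hw' _ (by omega) (near_trans (near_trans h1 h2) h4)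
    subst h5
    rw [h] at hx
    exact hx.ne rfl
  -- components
  have hcomp : ∀ a, ∃ C : Set V, a ∈ C ∧ (∀ x ∈ C, ∀ y, M.Adj x y → y ∈ C) ∧ C.ncard ≤ 3 ∧
      ∀ b ∈ C, near M 2 a b := by
    have hclosed : ∀ w, bad w → ∀ x ∈ ({w, uu w} ∪ M0.neighborSet (uu w) : Set V), ∀ y,
        M.Adj x y → y ∈ ({w, uu w} ∪ M0.neighborSet (uu w) : Set V) := by
      intro w hw x hx y hxy
      rcases hx with (rfl | rfl) | hx
      · rcases (hadj x y).1 hxy with h | ⟨-, h⟩ | ⟨h, h'⟩
        · exact absurd h (hw.2.2 y)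
        · exact Or.inl (Or.inr h)
        · exact absurd h' (fun h' => f1 x y hw h h')
      · rcases (hadj _ y).1 hxy with h | ⟨h, -⟩ | ⟨h, h'⟩
        · exact Or.inr h
        · exact absurd rfl (fun h' => f1 (uu w) w h hw h')
        · exact Or.inl (Or.inl (f2 w y hw h h').symm)
      · have hx' : M0.Adj (uu w) x := hx
        rcases (hadj x y).1 hxy with h | ⟨h, -⟩ | ⟨h, h'⟩
        · exact Or.inl (Or.inr (nb_unique (hM01 x) h hx'.symm))
        · exact absurd hx'.symm (h.2.2 _)
        · exact absurd h' (fun h' => f3 w y x hw h hx' h')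
    intro a
    by_cases ha : ∃ w, bad w ∧ a ∈ ({w, uu w} ∪ M0.neighborSet (uu w) : Set V)
    · obtain ⟨w, hw, haw⟩ := ha
      refine ⟨_, haw, hclosed w hw, ?_, ?_⟩
      · refine (Set.ncard_union_le _ _).trans ?_
        have h1 : ({w, uu w} : Set V).ncard ≤ 2 := (Set.ncard_insert_le _ _).trans (by simp)
        have h2 := hM01 (uu w)
        omega
      · have e1 : M.Adj w (uu w) := Or.inr (Or.inl ⟨hw, rfl⟩)
        have key : ∀ b ∈ ({w, uu w} ∪ M0.neighborSet (uu w) : Set V), near M 1 (uu w) b := by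
          intro b hb
          rcases hb with (rfl | rfl) | hb
          · exact near_adj e1.symm
          · exact near_refl _ _ _
          · exact near_adj (Or.inl hb)
        intro b hb
        exact near_trans (near_symm (key a haw)) (key b hb)
    · push Not at ha
      refine ⟨insert a (M0.neighborSet a), Set.mem_insert _ _, ?_, ?_, ?_⟩
      · have hna : ¬ bad a := fun h => ha a h (Or.inl (Or.inl rfl))
        intro x hx y hxy
        rcases hx with rfl | hx
        · rcases (hadj x y).1 hxy with h | ⟨h, -⟩ | ⟨h, h'⟩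
          · exact Or.inr h
          · exact absurd h hna
          · exact absurd (Or.inl (Or.inr h')) (ha y h)
        · have hx' : M0.Adj a x := hx
          have hax : ∀ w, bad w → x ∉ ({w, uu w} ∪ M0.neighborSet (uu w) : Set V) := by
            intro w hw hxw
            exact ha w hw (hclosed w hw x hxw a (Or.inl hx'.symm))
          rcases (hadj x y).1 hxy with h | ⟨h, -⟩ | ⟨h, h'⟩
          · exact Or.inl (nb_unique (hM01 x) h hx'.symm)
          · exact absurd (Or.inl (Or.inl rfl)) (hax x h)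
          · exact absurd (Or.inl (Or.inr h')) (hax y h)
      · refine (Set.ncard_insert_le _ _).trans ?_
        have := hM01 a
        omega
      · intro b hb
        rcases hb with rfl | hb
        · exact near_refl _ _ _
        · exact near_mono (near_adj (Or.inl hb)) (by omega)
  obtain ⟨hac, hnear, hcard⟩ := comp_of_closed hMG (big_mono hG (by omega)) hcomp
  refine ⟨M, {u | ∃ w, bad w ∧ u = uu w}, hMG, hac, ?_, ?_, ?_, ?_, hnear, hcard⟩
  · intro v
    by_cases hv : ∃ w, bad w ∧ v = uu w
    · obtain ⟨w, hw, rfl⟩ := hv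
      refine nb_le (S := insert w (M0.neighborSet (uu w))) ?_ ?_
      · intro x hx
        rcases (hadj _ x).1 hx with h | ⟨h, -⟩ | ⟨h, h'⟩
        · exact Or.inr h
        · exact absurd rfl (fun h' => f1 (uu w) w h hw h')
        · exact Or.inl (f2 w x hw h h').symm
      · refine (Set.ncard_insert_le _ _).trans ?_
        have := hM01 (uu w)
        omega
    · push Not at hv
      by_cases hb : bad v
      · refine nb_le (S := {uu v}) ?_ (by simp)
        intro x hx
        rcases (hadj _ x).1 hx with h | ⟨-, h⟩ | ⟨h, h'⟩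
        · exact absurd h (hb.2.2 x)
        · exact h
        · exact absurd h' (hv x h)
      · refine nb_le (S := M0.neighborSet v) ?_ ((hM01 v).trans (by omega))
        intro x hx
        rcases (hadj _ x).1 hx with h | ⟨h, -⟩ | ⟨h, h'⟩
        · exact h
        · exact absurd h hb
        · exact absurd h' (hv x h)
  · intro v hv
    have hv' : ∀ w, bad w → v ≠ uu w := fun w hw h => hv ⟨w, hw, h⟩
    by_cases hb : bad v
    · refine nb_le (S := {uu v}) ?_ (by simp)
      intro x hx
      rcases (hadj _ x).1 hx with h | ⟨-, h⟩ | ⟨h, h'⟩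
      · exact absurd h (hb.2.2 x)
      · exact h
      · exact absurd h' (hv' x h)
    · refine nb_le (S := M0.neighborSet v) ?_ (hM01 v)
      intro x hx
      rcases (hadj _ x).1 hx with h | ⟨h, -⟩ | ⟨h, h'⟩
      · exact h
      · exact absurd h hb
      · exact absurd h' (hv' x h)
  · rintro u ⟨w, hw, rfl⟩ u' ⟨w', hw', rfl⟩ hne hn
    have h1 := near_adj (huu w hw)
    have h2 := near_symm (near_adj (huu w' hw'))
    have := hsep w w' hw hw' _ (by omega) (near_trans (near_trans h1 hn) h2)
    exact hne (by rw [this])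
  · intro v
    have h1 := hd v
    rcases Nat.lt_or_ge (G.neighborSet v).ncard Δ with h | h
    · omega
    · have hΔ : (G.neighborSet v).ncard = Δ := le_antisymm h1 h
      have hpos : 0 < (M.neighborSet v).ncard := by
        rw [Set.ncard_pos (Set.toFinite _)]
        by_cases hM0 : ∃ x, M0.Adj v x
        · obtain ⟨x, hx⟩ := hM0
          exact ⟨x, Or.inl hx⟩
        · push Not at hM0
          by_cases hvW : v ∈ W
          · exact ⟨uu v, Or.inr (Or.inl ⟨⟨hvW, hΔ, hM0⟩, rfl⟩)⟩
          · exfalso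
            have := hM0c v hΔ hvW
            have h0 : M0.neighborSet v = ∅ := by
              ext x
              simp [hM0 x]
            rw [h0] at this
            simp at this
      omega

theorem mzr (hTut : TutStmt) : MzrStmt := by
  intro V _ G Δ ρ hρ hG hd
  have hG342 : Big G 342 := big_mono hG (by omega)
  rcases Nat.even_or_odd' Δ with ⟨k, hk | hk⟩
  · -- even
    have hC : ∀ a : V, ∃ C : Set V, a ∈ C ∧ (∀ x ∈ C, ∀ y, (⊥ : SimpleGraph V).Adj x y → y ∈ C) ∧
        C.ncard ≤ 3 ∧ ∀ b ∈ C, near (⊥ : SimpleGraph V) 2 a b := by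
      intro a
      refine ⟨{a}, rfl, fun x _ y h => absurd h (by simp), by simp, ?_⟩
      rintro b rfl
      exact near_refl _ _ _
    obtain ⟨h1, h2, h3⟩ := comp_of_closed (bot_le : (⊥ : SimpleGraph V) ≤ G) hG342 hC
    have h0 : ∀ v : V, ((⊥ : SimpleGraph V).neighborSet v).ncard = 0 := by
      intro v
      rw [SimpleGraph.neighborSet_bot]
      simp
    refine ⟨⊥, ∅, bot_le, h1, fun v => by rw [h0 v]; omega, fun v _ => by rw [h0 v]; omega,
      by simp, fun v => ?_, h2, h3⟩
    have := hd v
    omega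
  · rcases Nat.eq_zero_or_pos k with h0 | h0
    · -- Δ = 1
      subst h0
      have hd1 : ∀ v, (G.neighborSet v).ncard ≤ 1 := fun v => by
        have := hd v
        omega
      have hC : ∀ a : V, ∃ C : Set V, a ∈ C ∧ (∀ x ∈ C, ∀ y, G.Adj x y → y ∈ C) ∧
          C.ncard ≤ 3 ∧ ∀ b ∈ C, near G 2 a b := by
        intro a
        refine ⟨insert a (G.neighborSet a), Set.mem_insert _ _, ?_, ?_, ?_⟩
        · intro x hx y hxy
          rcases hx with rfl | hx
          · exact Or.inr hxy
          · exact Or.inl (nb_unique (hd1 x) hxy (G.adj_symm hx))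
        · refine (Set.ncard_insert_le _ _).trans ?_
          have := hd1 a
          omega
        · intro b hb
          rcases hb with rfl | hb
          · exact near_refl _ _ _
          · exact near_mono (near_adj hb) (by omega)
      obtain ⟨h1, h2, h3⟩ := comp_of_closed le_rfl hG342 hC
      exact ⟨G, ∅, le_rfl, h1, fun v => (hd1 v).trans (by omega), fun v _ => hd1 v, by simp,
        fun v => by omega, h2, h3⟩
    · exact odd_case hTut ρ hρ G Δ (by omega) (by omega) hG hd

end Pool.Agent.LLG.H48.Mzr
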