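import Mathlib
import Pool.Agent.Helper22_LLG.Stmt
import Pool.Agent.Helper76_LAG.Near
import Pool.Agent.Helper10_LAG.Uniq
import Pool.Agent.Helper25_LAG.Bnd
import Pool.Agent.Helper51_LAG.Tut
import Pool.Agent.Helper7_LAG.Cmp2
import Pool.Agent.Helper48_LLG.Mzr

/-!
# LLG, module START: from graphs to states
-/

set_option autoImplicit false

namespace Pool.Agent.LLG

open SimpleGraph Pool.Agent.LAG

namespace H48.Start

/-- START: the theorem follows from the decomposition of the first state. -/
theorem start (hTut : TutStmt) (hUq : UniqStmt) (hC : Cmp2Stmt) : StartStmt := by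
  classical
  intro V _ G Δ g hg hBig hd hGood
  have hG : Big G (4 * 200 + 14) := hBig.mono (by omega)
  obtain ⟨M, U, hMG, hMac, hM2, hMU, hUU, hGM, hMr, hM3⟩ :=
    H48.Mzr.mzr hTut V G Δ 200 (by norm_num) hG hd
  have hdeg : ∀ v, ((G \ M).neighborSet v).ncard ≤ 2 * (Δ / 2) := by
    intro v
    have e : (G \ M).neighborSet v = G.neighborSet v \ M.neighborSet v := by
      ext u; simp
    have hs : M.neighborSet v ⊆ G.neighborSet v := fun u hu => hMG hu
    rw [e, Set.ncard_sdiff hs (Set.toFinite _)]
    have := hGM v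
    omega
  have hGG : G \ (G \ M) = M := by
    rw [sdiff_sdiff_right_self]
    exact inf_eq_right.2 hMG
  have hS : Stt G (G \ M) U (Δ / 2) g 1 := by
    refine ⟨sdiff_le, ?_, ?_, hBig, hdeg, ?_, ?_⟩
    · rw [hGG]; exact hMr
    · rw [hGG]; exact hM3
    · intro x hx y hy hne hn
      exact hUU x hx y hy hne (near_mono (by norm_num) hn)
    · intro v
      rw [Set.ncard_le_one (Set.toFinite _)]
      rintro x ⟨hx, hxn⟩ y ⟨hy, hyn⟩
      by_contra hne
      exact hUU x hx y hy hne (near_mono (by norm_num) (near_trans hxn (near_symm hyn)))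
  obtain ⟨F, N, hF, hN, hsup, hQ, hu⟩ := hGood V G (G \ M) U hS
  rw [hGG] at hu
  -- the last forest
  have hMN := hC V M N hMac hM2
    (by
      intro u v huv
      apply hMU
      intro hu'
      exact hQ u v huv u hu' (Reachable.refl u))
    (by
      intro u v huv hr
      obtain ⟨p, hp⟩ := hMr u v hr
      have h1 := hN huv
      rw [sdiff_adj] at h1
      have hpath : (p.mapLe hMG).bypass.IsPath := Walk.bypass_isPath _
      have hlen : (p.mapLe hMG).bypass.length ≤ 2 := by
        refine (Walk.length_bypass_le_length _).trans ?_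
        simpa using hp
      have h2 := hUq V G (4 * 200 + 14) hG u v (p.mapLe hMG).bypass h1.1.toWalk hpath
        (by
          have := h1.1.ne
          rw [Walk.isPath_def]
          simp [Adj.toWalk, this])
        (by
          have : (h1.1.toWalk).length = 1 := by simp
          omega)
      have h3 : s(u, v) ∈ (p.mapLe hMG).edges := by
        apply Walk.edges_bypass_subset_edges
        rw [h2]
        simp [Adj.toWalk]
      have h4 : s(u, v) ∈ p.edges := by simpa using h3
      exact h1.2 (Walk.edges_subset_edgeSet p h4))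
    hu
  let H : Fin (Δ / 2 + 1) → SimpleGraph V := fun i =>
    if h : i.val < Δ / 2 then F ⟨i.val, h⟩ else M ⊔ N
  have hH1 : ∀ (i : Fin (Δ / 2 + 1)) (h : i.val < Δ / 2), H i = F ⟨i.val, h⟩ := fun i h => dif_pos h
  have hH2 : ∀ (i : Fin (Δ / 2 + 1)), ¬ i.val < Δ / 2 → H i = M ⊔ N := fun i h => dif_neg h
  refine ⟨H, ?_, ?_⟩
  · intro i
    by_cases h : i.val < Δ / 2
    · rw [hH1 i h]
      exact ⟨(hF _).2.1, (hF _).2.2⟩
    · rw [hH2 i h]
      exact hMN
  · apply le_antisymm
    · apply iSup_le
      intro i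
      by_cases h : i.val < Δ / 2
      · rw [hH1 i h]
        exact (hF _).1.trans sdiff_le
      · rw [hH2 i h]
        exact sup_le hMG (hN.trans sdiff_le)
    · intro u v huv
      rw [iSup_adj]
      by_cases hm : M.Adj u v
      · refine ⟨Fin.last _, ?_⟩
        rw [hH2 _ (by simp)]
        exact Or.inl hm
      · have h1 : ((⨆ i, F i) ⊔ N).Adj u v := by
          rw [hsup, sdiff_adj]
          exact ⟨huv, hm⟩
        rw [sup_adj, iSup_adj] at h1
        rcases h1 with ⟨i, hi⟩ | h1
        · refine ⟨i.castSucc, ?_⟩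
          rw [hH1 i.castSucc (by simp)]
          exact hi
        · refine ⟨Fin.last _, ?_⟩
          rw [hH2 _ (by simp)]
          exact Or.inr h1

end H48.Start

/-- Module START. -/
theorem H48.start : StartStmt :=
  H48.Start.start (Pool.Agent.LAG.tut (Pool.Agent.LAG.bnd Pool.Agent.LAG.uniqS)) Pool.Agent.LAG.uniq
    Pool.Agent.LAG.cmp2

end Pool.Agent.LLG
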