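import Mathlib
import Pool.Agent.Helper22_LLG.Stmt
import Pool.Agent.Helper76_LAG.Near
import Pool.Agent.Helper48_LLG.Reg

/-!
# LLG, module PULL: in a round the graph may be assumed to be regular
-/

set_option autoImplicit false

namespace Pool.Agent.LLG

open SimpleGraph Pool.Agent.LAG

namespace H48.Pull

lemma near_map {V W : Type} (f : V ↪ W) {A : SimpleGraph V} {A' : SimpleGraph W}
    (h : A'.comap f = A) {r : ℕ} {u v : V} (hn : near A r u v) : near A' r (f u) (f v) := by
  obtain ⟨p, hp⟩ := hn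
  let φ : A →g A' := ⟨f, fun {a b} hab => by rw [← h] at hab; exact hab⟩
  exact ⟨p.map φ, by rw [Walk.length_map]; exact hp⟩

lemma deg_comap {V W : Type} [Finite W] (f : V ↪ W) (F : SimpleGraph W) (v : V) (n : ℕ)
    (h : (F.neighborSet (f v)).ncard ≤ n) : (((F.comap f)).neighborSet v).ncard ≤ n := by
  refine le_trans ?_ h
  exact Set.ncard_le_ncard_of_injOn f (fun u hu => hu) (fun u _ u' _ h => f.injective h)
    (Set.toFinite _)

/-- PULL: restriction of a decomposition to a subset of the vertices. -/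
theorem pull_cnc {V W : Type} [Finite W] (f : V ↪ W) (A R : SimpleGraph V)
    (A' R' : SimpleGraph W) (Q : Set V) (k : ℕ) (hA : A'.comap f = A) (hR : R'.comap f = R)
    (h : Cnc A' R' (f '' Q) k) : Cnc A R Q k := by
  have hreach : ∀ u v, (A \ R).Reachable u v → (A' \ R').Reachable (f u) (f v) := by
    rintro u v ⟨p⟩
    let φ : (A \ R) →g (A' \ R') := ⟨f, fun {a b} hab => by
      rw [← hA, ← hR] at hab
      exact hab⟩
    exact ⟨p.map φ⟩
  obtain ⟨F, N, hF, hN, hsup, hQ, hu⟩ := h
  refine ⟨fun i => (F i).comap f, N.comap f, ?_, ?_, ?_, ?_, ?_⟩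
  · intro i
    obtain ⟨h1, h2, h3⟩ := hF i
    refine ⟨?_, h2.of_comap f, fun v => deg_comap f (F i) v 2 (h3 _)⟩
    rw [← hR]
    intro u v huv
    exact h1 huv
  · rw [← hR]
    intro u v huv
    exact hN huv
  · rw [← hR, ← hsup]
    ext u v
    simp only [sup_adj, iSup_adj, comap_adj]
  · intro u v huv x hx hn
    exact hQ (f u) (f v) huv (f x) ⟨x, hx, rfl⟩ (hreach _ _ hn)
  · intro u v u' v' h1 h2 hr
    have h3 := hu _ _ _ _ h1 h2 (hreach _ _ hr)
    have h4 : Sym2.map f s(u, v) = Sym2.map f s(u', v') := h3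
    exact Sym2.map.injective f.injective h4

lemma reach_map_inv {V W : Type} (f : V ↪ W) (M : SimpleGraph V) {x y : W}
    (p : (M.map f).Walk x y) : x = y ∨ ∃ a b, x = f a ∧ y = f b ∧ M.Reachable a b := by
  induction p with
  | nil => exact Or.inl rfl
  | @cons x z y h p ih =>
    rw [map_adj] at h
    obtain ⟨a, b, hab, rfl, rfl⟩ := h
    right
    rcases ih with h1 | ⟨a', b', h1, h2, h3⟩
    · exact ⟨a, b, rfl, h1.symm, hab.reachable⟩
    · have := f.injective h1
      subst this
      exact ⟨a, b', rfl, h2, hab.reachable.trans h3⟩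

theorem pull (hReg : RegStmt) : PullStmt := by
  classical
  intro k g q hk hg hGood V _ A R Q hS
  obtain ⟨W, hW, f, A', R', h1, h2, h3, h4, h5, π, hπ, h6⟩ :=
    hReg V A R (2 * k) g hS.le hS.big hS.deg
  apply pull_cnc f A R A' R' Q k h2 h3
  apply hGood W A' R' (f '' Q) _ h4
  have hM : A' \ R' = (A \ R).map f := by
    rw [h1]
    ext x y
    rw [sdiff_adj, sup_adj]
    constructor
    · rintro ⟨h | h, h'⟩
      · exact absurd h h'
      · exact h
    · intro h
      refine ⟨Or.inr h, ?_⟩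
      rw [map_adj] at h
      obtain ⟨a, b, hab, rfl, rfl⟩ := h
      rw [sdiff_adj] at hab
      intro h'
      apply hab.2
      rw [← h3]
      exact h'
  refine ⟨?_, ?_, ?_, h5, fun v => (h4 v).le, ?_, ?_⟩
  · rw [h1]; exact le_sup_left
  · rw [hM]
    rintro x y ⟨p⟩
    rcases reach_map_inv f (A \ R) p with h | ⟨a, b, rfl, rfl, hab⟩
    · rw [h]; exact near_refl 2 y
    · exact near_map f (by
        ext u v
        simp) (hS.m2 a b hab)
  · rw [hM]
    intro x
    by_cases hx : ∃ a, x = f a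
    · obtain ⟨a, rfl⟩ := hx
      have hsub : {b | ((A \ R).map f).Reachable (f a) b} ⊆ f '' {b | (A \ R).Reachable a b} := by
        rintro y ⟨p⟩
        rcases reach_map_inv f (A \ R) p with h | ⟨a', b, ha, rfl, hab⟩
        · exact ⟨a, Reachable.refl _, h⟩
        · have := f.injective ha
          subst this
          exact ⟨b, hab, rfl⟩
      refine (Set.ncard_le_ncard hsub (Set.toFinite _)).trans ?_
      rw [Set.ncard_image_of_injective _ f.injective]
      exact hS.m3 a
    · have hsub : {b | ((A \ R).map f).Reachable x b} ⊆ {x} := by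
        rintro y ⟨p⟩
        rcases reach_map_inv f (A \ R) p with h | ⟨a', b, ha, rfl, hab⟩
        · exact h.symm
        · exact absurd ⟨a', ha⟩ hx
      refine (Set.ncard_le_ncard hsub (Set.toFinite _)).trans ?_
      rw [Set.ncard_singleton]
      omega
  · rintro _ ⟨x, hx, rfl⟩ _ ⟨y, hy, rfl⟩ hne hn
    refine hS.sep x hx y hy (fun h => hne (by rw [h])) ?_
    have := h6 _ _ _ (by omega : 82 ≤ g) hn
    rwa [hπ] at this
  · intro w
    refine le_trans ?_ (hS.bal (π w))
    have hsub : {x | x ∈ f '' Q ∧ near A' 93 x w} ⊆ f '' {x | x ∈ Q ∧ near A 93 x (π w)} := by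
      rintro _ ⟨⟨x, hx, rfl⟩, hn⟩
      exact ⟨x, ⟨hx, near_symm (h6 _ _ _ (by omega : 93 ≤ g) (near_symm hn))⟩, rfl⟩
    refine (Set.ncard_le_ncard hsub (Set.toFinite _)).trans ?_
    rw [Set.ncard_image_of_injective _ f.injective]

end H48.Pull

/-- Module PULL. -/
theorem H48.pull : PullStmt := H48.Pull.pull (H48.Reg.reg H48.Gad.gad)

end Pool.Agent.LLG
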